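import Pool.Agent.Lib_MP_264ef2_co.Link
import Pool.Agent.Lib_MP_264ef2_co.DLem
import Pool.Agent.Lib_MP_264ef2_co.KC

set_option autoImplicit false

/-! Deterministic part of the argument. -/

namespace Pool.Agent.GR

open Finset
open scoped Classical

variable {n d : ℕ} {q : Mot n d}

/-- union of all rigid sets with at least `b` vertices -/
noncomputable def Rfun {n d : ℕ} (q : Mot n d) (b : ℝ) (G : SimpleGraph (Fin n)) :
    Finset (Fin n) := univ.filter (fun v => ∃ K : Finset (Fin n), b ≤ K.card ∧ Rg q G K ∧ v ∈ K)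

/-- the bad event of the first moment computation -/
def BadU {n : ℕ} (d : ℕ) (α β : ℝ) (R : SimpleGraph (Fin n) → Finset (Fin n))
    (G : SimpleGraph (Fin n)) : Prop :=
  ∃ U : Finset (Fin n), U.Nonempty ∧
        (U.card : ℝ) ≤ α * n ∧ Disjoint U (R (del G U)) ∧
        β * n ≤ (R (del G U)).card ∧
        (∀ w ∈ U, (nb G w ∩ R (del G U)).card + 1 ≤ d ∧
          d + 1 ≤ (nb G w ∩ R (del G U)).card + (nb G w ∩ U).card) ∧
        2 * U.card + 2 ≤ eo G U ∧ 4 * eo G U ≤ 10 * U.card

theorem eo_eq_sum (G : SimpleGraph (Fin n)) (U : Finset (Fin n)) :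
    eo G U = ∑ w ∈ U, (nb G w ∩ U).card := by
  unfold eo
  rw [card_filter, sum_product]
  refine sum_congr rfl (fun w _ => ?_)
  rw [← card_filter]
  congr 1
  ext u
  simp only [nb, mem_filter, mem_inter, mem_univ, true_and]
  tauto

theorem pos_finrank (G : SimpleGraph (Fin n)) (K : Finset (Fin n)) (hmax : MaxRg q G K)
    (U : Finset (Fin n)) (hUK : Disjoint U K) (hU : U.Nonempty) :
    1 ≤ Module.finrank ℝ (Mo q (ind G (U ∪ K)) Uᶜ) := by
  by_contra h
  have h0 : Module.finrank ℝ (Mo q (ind G (U ∪ K)) Uᶜ) = 0 := by omega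
  have hbot : Mo q (ind G (U ∪ K)) Uᶜ = ⊥ := Submodule.finrank_eq_zero.1 h0
  obtain ⟨w, hw⟩ := hU
  have : w ∈ K := by
    refine MaxRg.mem_of_pin hmax (fun m hm => ?_)
    rw [mem_Mo] at hm
    obtain ⟨hm1, hm2⟩ := hm
    set m' : Mot n d := fun v => if v ∈ U then m v else 0 with hm'
    have hmem : m' ∈ Mo q (ind G (U ∪ K)) Uᶜ := by
      rw [mem_Mo]
      refine ⟨fun t ht => by simp [hm', mem_compl.1 ht], fun a b hab => ?_⟩
      have key : ∀ v ∈ U ∪ K, m' v = m v := by
        intro v hv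
        by_cases hvU : v ∈ U
        · simp [hm', hvU]
        · have hvK : v ∈ K := by
            rcases mem_union.1 hv with h | h
            · exact absurd h hvU
            · exact h
          simp [hm', hvU, hm1 v hvK]
      rw [key a hab.2.1, key b hab.2.2]
      exact hm2 a b hab.1
    rw [hbot, Submodule.mem_bot] at hmem
    have := congrFun hmem w
    simpa [hm', hw] using this
  exact disjoint_left.1 hUK hw this

theorem ind_ind_le (G : SimpleGraph (Fin n)) {S T : Finset (Fin n)} (h : S ⊆ T) :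
    ind G S ≤ ind G T := fun _ _ hab => ⟨hab.1, h hab.2.1, h hab.2.2⟩

theorem ind_le (G : SimpleGraph (Fin n)) (S : Finset (Fin n)) : ind G S ≤ G :=
  fun _ _ hab => hab.1

theorem Rg_ind_of_ext (G : SimpleGraph (Fin n)) (W K : Finset (Fin n))
    (hext : ∀ m ∈ Mo q (ind G K) ∅, ∃ m' ∈ Mo q (ind G (W ∪ K)) ∅, ∀ v ∈ K, m' v = m v)
    (h : Rg q (ind G (W ∪ K)) K) : Rg q (ind G K) K := by
  unfold Rg rd at h ⊢
  refine le_trans (Submodule.finrank_mono ?_) h
  rintro _ ⟨m, hm, rfl⟩
  obtain ⟨m', hm', h'⟩ := hext m hm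
  refine ⟨m', hm', ?_⟩
  ext v i
  by_cases hv : v ∈ K
  · simp [PK, hv, h' v hv]
  · simp [PK, hv]

theorem det_main (hd : 2 ≤ d) (hq : Good q) (G : SimpleGraph (Fin n)) (ε4 ε8 α β γ : ℝ)
    (hS4 : Sp 4 ε4 G) (hS8 : Sp (8 * d) ε8 G) (hn4 : 5 * (d : ℝ) ≤ ε4 * n)
    (K0 : Finset (Fin n)) (hK0 : Rg q G K0) (hK0c : β * n ≤ K0.card)
    (hH : ((Hat d G).card : ℝ) ≤ γ * n)
    (h1 : (d : ℝ) ≤ (2 * β - γ) * n) (h2 : 5 * (d : ℝ) ≤ β * n)
    (h3 : d * (γ - β) ≤ ε8) (h4 : γ - β ≤ α) (h5 : γ - β ≤ ε4)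
    (hbad : ¬ BadU d α β (Rfun q (β * n)) G) :
    MaxRg q G (Hat d G) ∧ Rg q (ind G (Hat d G)) (Hat d G) ∧ β * n ≤ (Hat d G).card := by
  obtain ⟨K, hK0K, hmax⟩ := exists_MaxRg hK0
  have hKc : β * n ≤ K.card := hK0c.trans (by exact_mod_cast card_le_card hK0K)
  have hn0 : (0:ℝ) ≤ n := Nat.cast_nonneg n
  have hK5 : 5 * d ≤ K.card := by
    have : (5 * d : ℝ) ≤ K.card := h2.trans hKc
    exact_mod_cast this
  obtain ⟨hKH, hKr⟩ := KC hd hq G ε4 hS4 hn4 K hmax hK5
  have hKd : d ≤ K.card := by omega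
  -- the difference set is small
  have hsmall : ∀ W : Finset (Fin n), W ⊆ Hat d G → Disjoint W K →
      (W.card : ℝ) ≤ (γ - β) * n := by
    intro W hW hWK
    have : W.card + K.card ≤ (Hat d G).card := by
      rw [← card_union_of_disjoint hWK]
      exact card_le_card (union_subset hW hKH)
    have : (W.card : ℝ) + K.card ≤ (Hat d G).card := by exact_mod_cast this
    linarith
  have hDl : ∀ W : Finset (Fin n), W ⊆ Hat d G → Disjoint W K →
      2 * Module.finrank ℝ (Mo q (ind G (W ∪ K)) Wᶜ) +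
      (eo G W + 2 * ∑ w ∈ W, (nb G w ∩ K).card) = 2 * (d * W.card) := by
    intro W hW hWK
    refine Dlem hd hq G ε8 hS8 K hKd hmax W hWK ?_
    have h6 := hsmall W hW hWK
    have hd0 : (0:ℝ) ≤ d := Nat.cast_nonneg d
    calc (d:ℝ) * W.card ≤ d * ((γ - β) * n) := mul_le_mul_of_nonneg_left h6 hd0
      _ = (d * (γ - β)) * n := by ring
      _ ≤ ε8 * n := mul_le_mul_of_nonneg_right h3 hn0
  -- K is rigid as an induced graph
  have hKi : Rg q (ind G K) K := by
    have hdisj : Disjoint (Hat d G \ K) K := sdiff_disjoint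
    have hU : Hat d G \ K ∪ K = Hat d G := by
      rw [sdiff_union_of_subset hKH]
    refine Rg_ind_of_ext G (Hat d G \ K) K (fun m hm => ?_) (by rw [hU]; exact hKr)
    exact extW q G (Hat d G \ K) K hdisj (hDl _ sdiff_subset hdisj) m hm
  -- uniqueness
  have huniq : ∀ K', β * n ≤ (K'.card : ℝ) → Rg q G K' → K' ⊆ K := by
    intro K' hc' hr'
    obtain ⟨L, hL, hLmax⟩ := exists_MaxRg hr'
    have hLc : β * n ≤ L.card := hc'.trans (by exact_mod_cast card_le_card hL)
    have hL5 : 5 * d ≤ L.card := by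
      have : (5 * d : ℝ) ≤ L.card := h2.trans hLc
      exact_mod_cast this
    obtain ⟨hLH, _⟩ := KC hd hq G ε4 hS4 hn4 L hLmax hL5
    have hi : d ≤ (K ∩ L).card := by
      have e := card_union_add_card_inter K L
      have e2 : (K ∪ L).card ≤ (Hat d G).card := card_le_card (union_subset hKH hLH)
      have e' : ((K ∪ L).card : ℝ) + (K ∩ L).card = K.card + L.card := by exact_mod_cast e
      have e2' : ((K ∪ L).card : ℝ) ≤ (Hat d G).card := by exact_mod_cast e2
      have : (d : ℝ) ≤ (K ∩ L).card := by nlinarith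
      exact_mod_cast this
    have hu := Rg_union hq hmax.1 hLmax.1 hi
    have := hmax.2 _ subset_union_left hu
    exact hL.trans (by rw [← this]; exact subset_union_right)
  -- the core is contained in K
  have hcore : Cor d G ∅ ⊆ K := by
    by_contra hne
    apply hbad
    set U := Cor d G ∅ \ K with hUdef
    have hUne : U.Nonempty := by
      rw [hUdef, sdiff_nonempty]; exact hne
    have hUK : Disjoint U K := sdiff_disjoint
    have hUH : U ⊆ Hat d G := sdiff_subset.trans (Cor_subset_Hat G)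
    have hUc := hsmall U hUH hUK
    have hKd' : Rg q (del G U) K := by
      refine Rg_mono ?_ (subset_refl K) hKi
      refine ind_ind_le G (fun v hv => ?_)
      rw [mem_compl]
      exact fun hvU => disjoint_left.1 hUK hvU hv
    have hR : Rfun q (β * n) (del G U) = K := by
      ext v
      simp only [Rfun, mem_filter, mem_univ, true_and]
      constructor
      · rintro ⟨K', hc', hr', hv⟩
        exact huniq K' hc' (Rg_mono (ind_le G _) (subset_refl _) hr') hv
      · intro hv
        exact ⟨K, hKc, hKd', hv⟩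
    have hw1 : ∀ w ∈ U, (nb G w ∩ K).card + 1 ≤ d := fun w hw =>
      MaxRg.nb_le hq hmax (fun h => disjoint_left.1 hUK hw h)
    have hw2 : ∀ w ∈ U, d + 1 ≤ (nb G w ∩ K).card + (nb G w ∩ U).card := by
      intro w hw
      have hwC : w ∈ Cor d G ∅ := (mem_sdiff.1 hw).1
      rcases Cor_spec G ∅ hwC with h | h
      · exact absurd h (notMem_empty w)
      · refine h.trans ((card_le_card ?_).trans (card_union_le _ _))
        intro x hx
        rw [mem_inter] at hx
        rw [mem_union, mem_inter, mem_inter]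
        by_cases hxK : x ∈ K
        · exact Or.inl ⟨hx.1, hxK⟩
        · exact Or.inr ⟨hx.1, mem_sdiff.2 ⟨hx.2, hxK⟩⟩
    refine ⟨U, hUne, hUc.trans (mul_le_mul_of_nonneg_right h4 hn0), by rw [hR]; exact hUK,
      by rw [hR]; exact hKc, fun w hw => by rw [hR]; exact ⟨hw1 w hw, hw2 w hw⟩, ?_, ?_⟩
    · have hD := hDl U hUH hUK
      have hf := pos_finrank G K hmax U hUK hUne
      have hs : (d + 1) * U.card ≤ ∑ w ∈ U, ((nb G w ∩ K).card + (nb G w ∩ U).card) := by
        calc (d + 1) * U.card = ∑ w ∈ U, (d + 1) := by rw [sum_const, smul_eq_mul, mul_comm]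
          _ ≤ _ := sum_le_sum hw2
      rw [sum_add_distrib, ← eo_eq_sum] at hs
      nlinarith
    · have h4' := hS4 U hUne (hUc.trans (mul_le_mul_of_nonneg_right h5 hn0))
      omega
  have hHK : Hat d G ⊆ K := by
    refine Hat_min G K hcore (fun w hw => ?_)
    by_contra hwK
    have := MaxRg.nb_le hq hmax hwK
    omega
  have heq : K = Hat d G := subset_antisymm hKH hHK
  rw [← heq]
  exact ⟨hmax, hKi, hKc⟩

/-- what the frozen statement asks for, at one graph -/
theorem det_frozen (hd : 2 ≤ d) (hq : Good q) (G : SimpleGraph (Fin n)) (ε4 : ℝ)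
    (hS4 : Sp 4 ε4 G) (hn4 : 5 * (d : ℝ) ≤ ε4 * n)
    (hmax : MaxRg q G (Hat d G)) (hr : Rg q (ind G (Hat d G)) (Hat d G))
    (hc : d + 1 ≤ (Hat d G).card) :
    (rigF d n G (Hat d G) ∧ ∀ T : Finset (Fin n), Hat d G ⊆ T → rigF d n G T → T = Hat d G) ∧
    (∀ S : Finset (Fin n), (rigF d n G S ∧ ∀ T : Finset (Fin n), S ⊆ T → rigF d n G T → T = S) →
      S ≠ Hat d G → S.card < 5 * d) := by
  have hrH : rigF d n G (Hat d G) := (rigF_iff hq G _ hc).2 hr
  refine ⟨⟨hrH, fun T hT hrT => ?_⟩, fun S hS hne => ?_⟩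
  · have hTc : d + 1 ≤ T.card := hc.trans (card_le_card hT)
    exact hmax.2 T hT (Rg_mono (ind_le G T) (subset_refl T) ((rigF_iff hq G T hTc).1 hrT))
  · by_contra hlt
    push Not at hlt
    have hSc : d + 1 ≤ S.card := by omega
    have hrS : Rg q G S := Rg_mono (ind_le G S) (subset_refl S) ((rigF_iff hq G S hSc).1 hS.1)
    obtain ⟨L, hSL, hL⟩ := exists_MaxRg hrS
    have hLH := (KC hd hq G ε4 hS4 hn4 L hL (hlt.trans (card_le_card hSL))).1
    exact hne (hS.2 (Hat d G) (hSL.trans hLH) hrH).symm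

/-- a graph in which all small sets are sparse and no large set is nearly dense has no rigid sets
with more than three vertices -/
theorem det_sub (hd : 2 ≤ d) (G : SimpleGraph (Fin n)) (ε4 : ℝ) (hε4 : 0 < ε4)
    (hS4 : Sp 4 ε4 G)
    (hlarge : ¬ ∃ S : Finset (Fin n), ε4 * n ≤ S.card ∧ 2 * d * S.card ≤ eo G S + d * (d + 1))
    (S : Finset (Fin n)) (hS : rigF d n G S) : S.card ≤ 3 := by
  by_contra hlt
  push Not at hlt
  obtain ⟨q, hq⟩ := exists_good n d
  -- the edge count
  have hne : S.Nonempty := card_pos.1 (by omega)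
  rcases Nat.lt_or_ge d S.card with hdS | hdS
  · have hr := (rigF_iff hq G S hdS).1 hS
    have he := Rg_edges q hr
    rcases le_total (S.card : ℝ) (ε4 * n) with hs | hs
    · have h4 := hS4 S hne hs
      -- 4 * eo < 10 |S|, 2 d |S| ≤ eo + d (d+1)
      have h5 : d + 1 ≤ S.card := hdS
      rcases Nat.lt_or_ge d 3 with h3 | h3
      · have : d = 2 := by omega
        subst this
        omega
      · nlinarith
    · apply hlarge
      refine ⟨S, hs, ?_⟩
      nlinarith
  · -- a clique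
    have hcl : ∀ u ∈ S, ∀ v ∈ S, u ≠ v → G.Adj u v := by
      rcases hS with h | h
      · exact h.2
      · omega
    have he : eo G S = S.card * (S.card - 1) := by
      rw [eo_eq_sum]
      have : ∀ w ∈ S, (nb G w ∩ S).card = S.card - 1 := by
        intro w hw
        have : nb G w ∩ S = S.erase w := by
          ext u
          simp only [nb, mem_inter, mem_filter, mem_univ, true_and, mem_erase]
          constructor
          · rintro ⟨h1, h2⟩; exact ⟨fun e => by subst e; exact (G.loopless.irrefl _ h1), h2⟩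
          · rintro ⟨h1, h2⟩; exact ⟨hcl w hw u h2 (fun e => h1 e.symm), h2⟩
        rw [this, card_erase_of_mem hw]
      rw [sum_congr rfl this, sum_const, smul_eq_mul]
    rcases le_total (S.card : ℝ) (ε4 * n) with hs | hs
    · have h4 := hS4 S hne hs
      rw [he] at h4
      obtain ⟨k, hk⟩ : ∃ k, S.card = k + 4 := ⟨S.card - 4, by omega⟩
      rw [hk] at h4
      have : k + 4 - 1 = k + 3 := by omega
      rw [this] at h4
      nlinarith
    · apply hlarge
      refine ⟨S, hs, ?_⟩
      rw [he]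
      obtain ⟨k, hk⟩ : ∃ k, d = S.card + k := ⟨d - S.card, by omega⟩
      obtain ⟨l, hl⟩ : ∃ l, S.card = l + 1 := ⟨S.card - 1, by omega⟩
      rw [hk, hl]
      have : l + 1 - 1 = l := by omega
      rw [this]
      nlinarith

end Pool.Agent.GR
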