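import Pool.Agent.Lib_MP_264ef2_co.Sparse
import Pool.Agent.Lib_MP_264ef2_co.Good

set_option autoImplicit false

namespace Pool.Agent.GR

open Finset
open scoped Classical

namespace NullAux

section det
variable {n d : ℕ}

/-- the pair `e` is in the closure of `A` -/
def Cl (q : Mot n d) (A : Finset (Edg n)) (e : Edg n) : Prop :=
  Mo q (gr A) ∅ ≤ Mo q (gr {e}) ∅

/-- the closure of `A` -/
noncomputable def clS (q : Mot n d) (A : Finset (Edg n)) : Finset (Edg n) :=
  univ.filter (fun e => Cl q A e)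

/-- the redundant edges of `A` -/
noncomputable def red (q : Mot n d) (A : Finset (Edg n)) : Finset (Edg n) :=
  A.filter (fun e => Cl q (A.erase e) e)

theorem Mo_gr_anti {q : Mot n d} {A B : Finset (Edg n)} (h : A ⊆ B) :
    Mo q (gr B) ∅ ≤ Mo q (gr A) ∅ := Mo_anti (gr_mono h) (subset_refl _)

theorem Cl_mono {q : Mot n d} {A B : Finset (Edg n)} (h : A ⊆ B) {e : Edg n} (he : Cl q A e) :
    Cl q B e := (Mo_gr_anti h).trans he

theorem clS_mono {q : Mot n d} {A B : Finset (Edg n)} (h : A ⊆ B) : clS q A ⊆ clS q B := by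
  intro e he
  simp only [clS, mem_filter, mem_univ, true_and] at he ⊢
  exact Cl_mono h he

theorem finrank_lt {q : Mot n d} {A : Finset (Edg n)} {e : Edg n} (he : e ∈ A)
    (h : ¬ Cl q (A.erase e) e) :
    Module.finrank ℝ (Mo q (gr A) ∅) < Module.finrank ℝ (Mo q (gr (A.erase e)) ∅) := by
  apply Submodule.finrank_lt_finrank_of_lt
  refine lt_of_le_of_ne (Mo_gr_anti (erase_subset _ _)) ?_
  intro heq
  apply h
  unfold Cl
  rw [← heq]
  exact Mo_gr_anti (by simpa using he)

theorem finrank_coloops {q : Mot n d} {A : Finset (Edg n)} (C : Finset (Edg n)) :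
    C ⊆ A → (∀ e ∈ C, ¬ Cl q (A.erase e) e) →
    Module.finrank ℝ (Mo q (gr A) ∅) + C.card ≤ Module.finrank ℝ (Mo q (gr (A \ C)) ∅) := by
  induction C using Finset.induction_on with
  | empty => intro _ _; rw [sdiff_empty, card_empty, add_zero]
  | insert e C heC ih =>
    intro hCA hC
    have h1 := ih ((subset_insert _ _).trans hCA) (fun x hx => hC x (mem_insert_of_mem hx))
    have heA : e ∈ A := hCA (mem_insert_self _ _)
    have h2 : ¬ Cl q ((A \ C).erase e) e := by
      intro h
      apply hC e (mem_insert_self _ _)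
      refine Cl_mono ?_ h
      exact erase_subset_erase _ sdiff_subset
    have h3 := finrank_lt (q := q) (A := A \ C) (e := e) (by simp [heA, heC]) h2
    have h4 : A \ insert e C = (A \ C).erase e := by
      ext x; simp only [mem_sdiff, mem_insert, mem_erase]; tauto
    rw [h4, card_insert_of_notMem heC]
    omega

theorem finrank_Mot : Module.finrank ℝ (Mot n d) = n * d := by
  simp [Mot, Module.finrank_pi_fintype]

theorem card_red {q : Mot n d} (A : Finset (Edg n)) :
    A.card + Module.finrank ℝ (Mo q (gr A) ∅) ≤ n * d + (red q A).card := by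
  have h1 := finrank_coloops (q := q) (A := A) (A.filter (fun e => ¬ Cl q (A.erase e) e))
    (filter_subset _ _) (fun e he => (mem_filter.1 he).2)
  have h2 : Module.finrank ℝ (Mo q (gr (A \ (A.filter (fun e => ¬ Cl q (A.erase e) e)))) ∅) ≤
      n * d := by
    rw [← finrank_Mot (n := n) (d := d)]
    exact Submodule.finrank_le _
  have h3 : (A.filter (fun e => Cl q (A.erase e) e)).card +
      (A.filter (fun e => ¬ Cl q (A.erase e) e)).card = A.card :=
    card_filter_add_card_filter_not _
  unfold red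
  omega

theorem eo_univ_le (A : Finset (Edg n)) : eo (gr A) univ ≤ 2 * A.card := by
  unfold eo
  have h1 : ∀ e ∈ (((univ : Finset (Fin n)) ×ˢ (univ : Finset (Fin n))).filter
      (fun e => (gr A).Adj e.1 e.2)), s(e.1, e.2) ∈ A.image (fun x : Edg n => (x : Sym2 (Fin n))) := by
    rintro ⟨u, v⟩ he
    simp only [mem_filter, mem_product, mem_univ, true_and] at he
    rw [gr_adj] at he
    obtain ⟨h, h'⟩ := he
    exact mem_image.2 ⟨_, h', rfl⟩
  have h2 := card_le_mul_card_image_of_maps_to h1 2 ?_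
  · refine h2.trans ?_
    exact Nat.mul_le_mul_left _ card_image_le
  · intro e _
    induction e using Sym2.ind with
    | _ x y =>
      refine (card_le_card (t := {(x, y), (y, x)}) ?_).trans card_le_two
      rintro ⟨u, v⟩ he
      simp only [mem_filter] at he
      have := he.2
      rw [Sym2.eq_iff] at this
      simp only [mem_insert, mem_singleton, Prod.mk.injEq]
      exact this

theorem eo_mono_set (G : SimpleGraph (Fin n)) {S T : Finset (Fin n)} (h : S ⊆ T) :
    eo G S ≤ eo G T := by
  unfold eo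
  exact card_le_card (filter_subset_filter _ (product_subset_product h h))

/-- nullity -/
theorem null_le {q : Mot n d} (A : Finset (Edg n)) (S : Finset (Fin n)) :
    eo (gr A) S ≤ 2 * (red q A).card + 2 * d * S.card := by
  have h1 := finrank_Mo_ge q (gr A) S
  have h2 : Module.finrank ℝ (Mo q (gr A) S) ≤ Module.finrank ℝ (Mo q (gr A) ∅) :=
    Submodule.finrank_mono (Mo_anti le_rfl (empty_subset _))
  have h3 := card_red (q := q) A
  have h4 := eo_univ_le A
  have h5 := eo_mono_set (gr A) (subset_univ S)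
  have h6 : S.card + Sᶜ.card = n := by
    simp [card_add_card_compl]
  have h7 : d * S.card + d * Sᶜ.card = n * d := by rw [← mul_add, h6, mul_comm]
  have h8 : 2 * d * S.card = 2 * (d * S.card) := by ring
  rw [h8]
  generalize d * S.card = x at *
  generalize d * Sᶜ.card = y at *
  generalize n * d = z at *
  omega

end det


section prob
variable {n d : ℕ}

theorem Ex_mem_erase' {α : Type*} [Fintype α] [DecidableEq α] (a : α) (p : ℝ)
    (f : Finset α → ℝ) :
    Ex p (fun A => if a ∈ A then f (A.erase a) else 0) = p * Ex p (fun A => f (A.erase a)) := by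
  convert Ex_mem_erase a p f

theorem Ex_not_mem' {α : Type*} [Fintype α] [DecidableEq α] (a : α) (p : ℝ)
    (f : Finset α → ℝ) :
    Ex p (fun A => if a ∈ A then 0 else f A) = (1 - p) * Ex p (fun A => f (A.erase a)) := by
  convert Ex_not_mem a p f

theorem Pr_lower_tail' {α : Type*} [Fintype α] [DecidableEq α] {p : ℝ} (h0 : 0 ≤ p) (h1 : p ≤ 1)
    (X : Finset α) {t : ℝ} (ht : 0 < t) :
    Pr p (fun A => ((A ∩ X).card : ℝ) ≤ p * X.card - t) ≤ p * X.card / t ^ 2 := by
  convert Pr_lower_tail h0 h1 X ht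

theorem Pr_def (p : ℝ) {α : Type*} [Fintype α] (Q : Finset α → Prop) :
    Pr p Q = Ex p (fun A => if Q A then 1 else 0) := rfl

theorem ex_red_le {q : Mot n d} {p : ℝ} (h0 : 0 ≤ p) (h1 : p ≤ 1) (t : ℝ) :
    (1 - p) * Ex p (fun A : Finset (Edg n) =>
      if ((clS q A).card : ℝ) < t then ((red q A).card : ℝ) else 0) ≤
     p * (t * Pr p (fun A : Finset (Edg n) => ((clS q A).card : ℝ) < t)) := by
  set f : Edg n → Finset (Edg n) → ℝ :=
    fun e A => if Cl q A e ∧ ((clS q A).card : ℝ) < t then 1 else 0 with hf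
  have hf0 : ∀ e A, 0 ≤ f e A := by
    intro e A; simp only [hf]; split_ifs <;> norm_num
  have s1 : ∀ A : Finset (Edg n), (if ((clS q A).card : ℝ) < t then ((red q A).card : ℝ) else 0) ≤
      ∑ e : Edg n, (if e ∈ A then f e (A.erase e) else 0) := by
    intro A
    split_ifs with hD
    · have : ((red q A).card : ℝ) = ∑ e : Edg n, if e ∈ A ∧ Cl q (A.erase e) e then (1:ℝ) else 0 := by
        rw [sum_boole]
        congr 1
        congr 1
        ext e
        simp [red]
      rw [this]
      apply sum_le_sum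
      intro e _
      by_cases heA : e ∈ A
      · by_cases hcl : Cl q (A.erase e) e
        · have hD' : ((clS q (A.erase e)).card : ℝ) < t := by
            refine lt_of_le_of_lt ?_ hD
            exact_mod_cast card_le_card (clS_mono (erase_subset _ _))
          simp [heA, hcl, hf, hD']
        · simp only [heA, hcl, and_false, if_false, if_true]
          exact hf0 _ _
      · simp [heA]
    · apply sum_nonneg
      intro e _
      split_ifs
      · exact hf0 _ _
      · exact le_rfl
  have s2 : Ex p (fun A : Finset (Edg n) =>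
      if ((clS q A).card : ℝ) < t then ((red q A).card : ℝ) else 0) ≤
      ∑ e : Edg n, p * Ex p (fun A => f e (A.erase e)) := by
    refine (Ex_mono h0 h1 s1).trans ?_
    rw [Ex_sum]
    apply sum_le_sum
    intro e _
    rw [Ex_mem_erase']
  have s3 : ∀ e : Edg n, (1 - p) * Ex p (fun A => f e (A.erase e)) ≤ Ex p (f e) := by
    intro e
    rw [← Ex_not_mem']
    apply Ex_mono h0 h1
    intro A
    split_ifs
    · exact hf0 _ _
    · exact le_rfl
  have s4 : ∑ e : Edg n, Ex p (f e) ≤
      t * Pr p (fun A : Finset (Edg n) => ((clS q A).card : ℝ) < t) := by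
    rw [← Ex_sum, Pr_def, ← Ex_mul_left]
    apply Ex_mono h0 h1
    intro A
    by_cases hD : ((clS q A).card : ℝ) < t
    · simp only [hf, hD, and_true, if_true, mul_one]
      rw [sum_boole]
      exact hD.le
    · simp [hf, hD]
  calc _ ≤ (1 - p) * ∑ e : Edg n, p * Ex p (fun A => f e (A.erase e)) :=
        mul_le_mul_of_nonneg_left s2 (by linarith)
    _ = p * ∑ e : Edg n, (1 - p) * Ex p (fun A => f e (A.erase e)) := by
        rw [mul_sum, mul_sum]
        apply sum_congr rfl
        intro e _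
        ring
    _ ≤ p * ∑ e : Edg n, Ex p (f e) :=
        mul_le_mul_of_nonneg_left (sum_le_sum fun e _ => s3 e) h0
    _ ≤ _ := mul_le_mul_of_nonneg_left s4 h0

/-- a.a.s. the closure is dense -/
theorem clS_dense {q : Mot n d} {c ε1 : ℝ} (hc : 0 < c) (hε : 0 < ε1) (hn : 2 * c ≤ n)
    (hn0 : 0 < n) :
    Pr (c / n) (fun A : Finset (Edg n) => ((clS q A).card : ℝ) < ε1 / (8 * c) * n ^ 2) ≤
    2 * (1 - Pr (c / n) (fun A : Finset (Edg n) => ∃ S : Finset (Fin n),
        2 * d * (S.card : ℝ) + ε1 * n ≤ eo (gr A) S)) := by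
  have hnR : (0:ℝ) < n := by exact_mod_cast hn0
  set p := c / (n:ℝ) with hp
  have h0 : 0 ≤ p := by positivity
  have h2 : p ≤ 1 / 2 := by
    rw [hp, div_le_div_iff₀ hnR (by norm_num)]
    linarith
  have h1 : p ≤ 1 := by linarith
  set t := ε1 / (8 * c) * (n:ℝ) ^ 2 with ht
  have key := ex_red_le (q := q) h0 h1 t
  set E1 : Finset (Edg n) → Prop := fun A => ∃ S : Finset (Fin n),
        2 * d * (S.card : ℝ) + ε1 * n ≤ eo (gr A) S with hE1
  set D : Finset (Edg n) → Prop := fun A => ((clS q A).card : ℝ) < t with hD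
  have a1 : Pr p D ≤ Pr p (fun A => D A ∧ E1 A) + (1 - Pr p E1) := by
    rw [← Pr_not]
    refine le_trans ?_ (Pr_or_le h0 h1 _ _)
    apply Pr_mono h0 h1
    intro A hA
    by_cases h : E1 A
    · exact Or.inl ⟨hA, h⟩
    · exact Or.inr h
  have a2 : (ε1 * n / 2) * Pr p (fun A => D A ∧ E1 A) ≤ Ex p (fun A : Finset (Edg n) =>
      if ((clS q A).card : ℝ) < t then ((red q A).card : ℝ) else 0) := by
    rw [Pr_def, ← Ex_mul_left]
    apply Ex_mono h0 h1
    intro A
    by_cases h : D A
    · by_cases h' : E1 A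
      · have hDA : ((clS q A).card : ℝ) < t := h
        simp only [h, h', and_self, if_true, mul_one, hDA]
        obtain ⟨S, hS⟩ := h'
        have := null_le (q := q) A S
        have : (eo (gr A) S : ℝ) ≤ 2 * (red q A).card + 2 * d * S.card := by exact_mod_cast this
        linarith
      · simp only [h', and_false, if_false, mul_zero]
        split_ifs <;> positivity
    · simp only [h, false_and, if_false, mul_zero]
      split_ifs <;> positivity
  have hPD : 0 ≤ Pr p D := Pr_nonneg h0 h1 _
  have hPE : 0 ≤ Pr p (fun A => D A ∧ E1 A) := Pr_nonneg h0 h1 _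
  have a3 : (1 / 2) * ((ε1 * n / 2) * Pr p (fun A => D A ∧ E1 A)) ≤ p * (t * Pr p D) := by
    refine le_trans ?_ key
    refine le_trans (mul_le_mul_of_nonneg_left a2 (by norm_num)) ?_
    apply mul_le_mul_of_nonneg_right (by linarith)
    apply Ex_nonneg h0 h1
    intro A
    split_ifs <;> positivity
  have a4 : p * (t * Pr p D) = (ε1 * n / 8) * Pr p D := by
    rw [hp, ht]
    field_simp
  rw [a4] at a3
  have a5 : (ε1 * n / 4) * Pr p (fun A => D A ∧ E1 A) ≤ (ε1 * n / 4) * (Pr p D / 2) := by
    linarith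
  have a6 : Pr p (fun A => D A ∧ E1 A) ≤ Pr p D / 2 :=
    le_of_mul_le_mul_left a5 (by positivity)
  linarith

theorem pinned_of {q : Mot n d} (hq : Good q) {A : Finset (Edg n)} {T : Finset (Fin n)}
    {w : Fin n} (h : d ≤ (T ∩ nb (gr (clS q A)) w).card) : w ∈ PhiR q (gr A) T := by
  unfold PhiR
  rw [mem_filter]
  refine ⟨mem_univ _, ?_⟩
  rw [kk_eq_zero]
  intro m hm
  have hw : w ∉ T ∩ nb (gr (clS q A)) w := by
    intro hw
    have := (mem_inter.1 hw).2
    simp only [nb, mem_filter, mem_univ, true_and] at this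
    exact (gr (clS q A)).loopless.irrefl w this
  refine good_zero hq w _ hw h (m w) ?_
  intro u hu
  rw [mem_inter] at hu
  have hmu : m u = 0 := hm.1 u hu.1
  have hadj := hu.2
  simp only [nb, mem_filter, mem_univ, true_and] at hadj
  rw [gr_adj] at hadj
  obtain ⟨hne, he⟩ := hadj
  simp only [clS, mem_filter, mem_univ, true_and] at he
  have hm' : m ∈ Mo q (gr A) ∅ := Mo_anti le_rfl (empty_subset _) hm
  have := (he hm').2 w u (by
    rw [gr_adj]
    exact ⟨hne, by simp⟩)
  rwa [hmu, sub_zero] at this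

theorem card_le_eo (B : Finset (Edg n)) : B.card ≤ eo (gr B) univ := by
  have h1 : B.card = (B.image (fun x : Edg n => (x : Sym2 (Fin n)))).card := by
    rw [card_image_of_injective _ Subtype.val_injective]
  rw [h1]
  unfold eo
  refine (card_le_card (t := (((univ : Finset (Fin n)) ×ˢ (univ : Finset (Fin n))).filter
      (fun e => (gr B).Adj e.1 e.2)).image (fun e => s(e.1, e.2))) ?_).trans card_image_le
  intro x hx
  rw [mem_image] at hx
  obtain ⟨e, he, rfl⟩ := hx
  obtain ⟨e, he'⟩ := e
  induction e using Sym2.ind with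
  | _ x y =>
    rw [mem_image]
    refine ⟨(x, y), ?_, rfl⟩
    simp only [mem_filter, mem_product, mem_univ, true_and]
    rw [gr_adj]
    exact ⟨by simpa using he', he⟩

theorem eo_univ_eq (G : SimpleGraph (Fin n)) : eo G univ = ∑ w, (nb G w).card := by
  unfold eo nb
  rw [card_filter, sum_product]
  apply sum_congr rfl
  intro w _
  rw [card_filter]

theorem many_big {a : ℝ} (ha : 0 < a) (hn0 : 0 < n) (B : Finset (Edg n))
    (hB : 2 * a * n ^ 2 ≤ B.card) :
    a * n ≤ ((univ.filter (fun w : Fin n => a * n ≤ (nb (gr B) w).card)).card : ℝ) := by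
  have hnR : (0:ℝ) < n := by exact_mod_cast hn0
  have h1 : (B.card : ℝ) ≤ ∑ w, ((nb (gr B) w).card : ℝ) := by
    have := card_le_eo B
    rw [eo_univ_eq] at this
    exact_mod_cast this
  have h2 : ∑ w, ((nb (gr B) w).card : ℝ) ≤
      ∑ w : Fin n, (a * n + (if a * n ≤ ((nb (gr B) w).card : ℝ) then (n:ℝ) else 0)) := by
    apply sum_le_sum
    intro w _
    split_ifs with h
    · have : ((nb (gr B) w).card : ℝ) ≤ n := by
        have := card_le_univ (nb (gr B) w)
        rw [Fintype.card_fin] at this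
        exact_mod_cast this
      have : 0 ≤ a * n := by positivity
      linarith
    · linarith [not_le.1 h]
  rw [sum_add_distrib, sum_const, card_univ, Fintype.card_fin, nsmul_eq_mul, ← sum_filter,
    sum_const, nsmul_eq_mul] at h2
  have h3 : a * n * n ≤ ((univ.filter (fun w : Fin n =>
      a * n ≤ ((nb (gr B) w).card : ℝ))).card : ℝ) * n := by
    nlinarith
  exact le_of_mul_le_mul_right h3 hnR

theorem th_lower {p : ℝ} (h0 : 0 ≤ p) (h1 : p ≤ 1) {I i : ℕ} (hI : I ≤ i) (hIp : I * p ≤ 1) :
    I * p / 2 ≤ th p i := by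
  unfold th
  have a1 : (1 - p) ^ i ≤ (1 - p) ^ I := pow_le_pow_of_le_one (by linarith) (by linarith) hI
  have a2 : (1 - p) ^ I * (1 + p) ^ I ≤ 1 := by
    rw [← mul_pow]
    apply pow_le_one₀ <;> nlinarith
  have a3 : 1 + (I : ℝ) * p ≤ (1 + p) ^ I := one_add_mul_le_pow (by linarith) I
  have a4 : 0 ≤ (1 - p) ^ I := pow_nonneg (by linarith) _
  have a5 : (1 - p) ^ I * (1 + I * p) ≤ 1 := by
    refine le_trans ?_ a2
    exact mul_le_mul_of_nonneg_left a3 a4
  have hx : 0 ≤ (I:ℝ) * p := by positivity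
  nlinarith

theorem th_mem {p : ℝ} (h0 : 0 ≤ p) (h1 : p ≤ 1) (i : ℕ) : 0 ≤ th p i ∧ th p i ≤ 1 := by
  unfold th
  have a1 : 0 ≤ (1 - p) ^ i := pow_nonneg (by linarith) _
  have a2 : (1 - p) ^ i ≤ 1 := pow_le_one₀ (by linarith) (by linarith)
  constructor <;> linarith

/-- if the closure is dense then a random grounding pins many vertices -/
theorem pin_many {q : Mot n d} (hq : Good q) {a θ μ : ℝ} (ha : 0 < a) (hn0 : 0 < n)
    (h0 : 0 ≤ θ) (h1 : θ ≤ 1) (hμ : 2 * d ≤ μ) (hμ0 : 0 < μ) (hθ : μ ≤ θ * (a * n))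
    (A : Finset (Edg n)) (hA : 2 * a * n ^ 2 ≤ (clS q A).card) :
    Ex θ (fun T : Finset (Fin n) => if rho (PhiR q (gr A) T) < a / 2 then 1 else 0) ≤ 8 / μ := by
  have hnR : (0:ℝ) < n := by exact_mod_cast hn0
  set W := univ.filter (fun w : Fin n => a * n ≤ ((nb (gr (clS q A)) w).card : ℝ)) with hW
  have hWc : a * n ≤ (W.card : ℝ) := many_big ha hn0 _ hA
  have hWpos : (0:ℝ) < W.card := lt_of_lt_of_le (by positivity) hWc
  -- each vertex of W is pinned with high probability
  have h2 : ∀ w ∈ W, Pr θ (fun T : Finset (Fin n) => w ∉ PhiR q (gr A) T) ≤ 4 / μ := by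
    intro w hw
    set N := nb (gr (clS q A)) w with hN
    have hNc : a * n ≤ (N.card : ℝ) := (mem_filter.1 hw).2
    have hmean : μ ≤ θ * N.card := hθ.trans (mul_le_mul_of_nonneg_left hNc h0)
    have hpos : 0 < θ * N.card := lt_of_lt_of_le hμ0 hmean
    calc Pr θ (fun T : Finset (Fin n) => w ∉ PhiR q (gr A) T)
        ≤ Pr θ (fun T : Finset (Fin n) => ((T ∩ N).card : ℝ) ≤ θ * N.card - θ * N.card / 2) := by
          apply Pr_mono h0 h1
          intro T hT
          have : ¬ d ≤ (T ∩ N).card := fun h => hT (pinned_of hq h)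
          have h3 : ((T ∩ N).card : ℝ) ≤ d := by exact_mod_cast (not_le.1 this).le
          linarith
      _ ≤ θ * N.card / (θ * N.card / 2) ^ 2 :=
          Pr_lower_tail' h0 h1 N (by positivity)
      _ = 4 / (θ * N.card) := by field_simp; norm_num
      _ ≤ 4 / μ := by
          apply div_le_div_of_nonneg_left (by norm_num) hμ0 hmean
  have h3 : ∀ T : Finset (Fin n), rho (PhiR q (gr A) T) < a / 2 →
      (W.card : ℝ) / 2 ≤ ∑ w ∈ W, (if w ∉ PhiR q (gr A) T then (1:ℝ) else 0) := by
    intro T hT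
    unfold rho at hT
    rw [div_lt_iff₀ hnR] at hT
    rw [sum_boole]
    have e1 : (W.filter (fun w => w ∉ PhiR q (gr A) T)).card +
        (W.filter (fun w => w ∈ PhiR q (gr A) T)).card = W.card := by
      rw [add_comm]
      exact card_filter_add_card_filter_not _
    have e2 : (W.filter (fun w => w ∈ PhiR q (gr A) T)).card ≤ (PhiR q (gr A) T).card := by
      apply card_le_card
      intro x hx
      exact (mem_filter.1 hx).2
    have e1' : ((W.filter (fun w => w ∉ PhiR q (gr A) T)).card : ℝ) +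
        (W.filter (fun w => w ∈ PhiR q (gr A) T)).card = W.card := by exact_mod_cast e1
    have e2' : ((W.filter (fun w => w ∈ PhiR q (gr A) T)).card : ℝ) ≤
        (PhiR q (gr A) T).card := by exact_mod_cast e2
    linarith
  calc Ex θ (fun T : Finset (Fin n) => if rho (PhiR q (gr A) T) < a / 2 then 1 else 0)
      = Pr θ (fun T : Finset (Fin n) => rho (PhiR q (gr A) T) < a / 2) := rfl
    _ ≤ Pr θ (fun T : Finset (Fin n) => (W.card : ℝ) / 2 ≤
          ∑ w ∈ W, (if w ∉ PhiR q (gr A) T then (1:ℝ) else 0)) := Pr_mono h0 h1 h3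
    _ ≤ Ex θ (fun T : Finset (Fin n) =>
          ∑ w ∈ W, (if w ∉ PhiR q (gr A) T then (1:ℝ) else 0)) / ((W.card : ℝ) / 2) := by
        apply Pr_markov h0 h1
        · intro T
          apply sum_nonneg
          intro w _
          split_ifs <;> norm_num
        · positivity
    _ ≤ (W.card * (4 / μ)) / ((W.card : ℝ) / 2) := by
        apply div_le_div_of_nonneg_right _ (by positivity)
        rw [Ex_sum, ← nsmul_eq_mul, ← sum_const]
        refine sum_le_sum (fun w hw => ?_)
        refine le_trans (le_of_eq ?_) (h2 w hw)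
        rw [Pr_def]
        congr 1
        ext T
        congr
    _ = 8 / μ := by field_simp; norm_num

end prob

end NullAux

/-- beyond the orientability threshold a bounded number of random groundings pins linearly many
vertices -/
theorem grounded_lower (d : ℕ) (hd : 2 ≤ d) (c0 c : ℝ) (h0 : 0 < c0) (hc : c0 < c)
    (H : ∀ η > 0, ∃ N : ℕ, ∀ n : ℕ, N ≤ n →
      Pr (c0 / n) (fun A : Finset (Edg n) => ∀ S : Finset (Fin n),
        eo (gr A) S ≤ 2 * d * S.card) ≤ η) :
    ∃ ε > 0, ∀ η > 0, ∃ I0 N : ℕ, ∀ n : ℕ, N ≤ n → ∀ i : ℕ, I0 ≤ i →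
      ∀ q : Mot n d, Good q →
      Ex (c / n) (fun A : Finset (Edg n) => Ex (th (c / n) i) (fun T : Finset (Fin n) =>
        if rho (PhiR q (gr A) T) < ε then 1 else 0)) ≤ η := by
  have hc0 : 0 < c := h0.trans hc
  obtain ⟨ε0, hε0, Hsp⟩ := sparse c0 h0 4 (by norm_num)
  obtain ⟨ε1, hε1, Hspr⟩ := sprinkle d 0 c0 c ε0 h0 hc hε0
  set a : ℝ := ε1 / (16 * c) with ha
  have ha0 : 0 < a := by positivity
  refine ⟨a / 2, by positivity, ?_⟩
  intro η hη
  obtain ⟨N1, hN1⟩ := H (η / 12) (by positivity)
  obtain ⟨N2, hN2⟩ := Hsp (η / 12) (by positivity)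
  obtain ⟨N3, hN3⟩ := Hspr (η / 12) (by positivity)
  set μ : ℝ := 2 * d + 16 / η with hμ
  have hμ0 : 0 < μ := by positivity
  obtain ⟨I0, hI0⟩ := exists_nat_ge (2 * μ / (c * a))
  obtain ⟨N4, hN4⟩ := exists_nat_ge (2 * c + I0 * c)
  refine ⟨I0, max (max N1 N2) (max N3 (max N4 1)), ?_⟩
  intro n hn i hi q hq
  have n1 : N1 ≤ n := le_trans (by simp) hn
  have n2 : N2 ≤ n := le_trans (by simp) hn
  have n3 : N3 ≤ n := le_trans (by simp) hn
  have n4 : N4 ≤ n := le_trans (by simp) hn
  have n5 : 1 ≤ n := le_trans (by simp) hn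
  have hnR : (0:ℝ) < n := by exact_mod_cast n5
  have n4' : 2 * c + I0 * c ≤ (n:ℝ) := hN4.trans (by exact_mod_cast n4)
  have hI0c : 0 ≤ (I0:ℝ) * c := by positivity
  have p0 : 0 ≤ c / (n:ℝ) := by positivity
  have p1 : c / (n:ℝ) ≤ 1 := by
    rw [div_le_one hnR]; linarith
  have p0' : 0 ≤ c0 / (n:ℝ) := by positivity
  have p1' : c0 / (n:ℝ) ≤ 1 := by
    rw [div_le_one hnR]; linarith
  -- the event E1
  have hE1 : 1 - Pr (c / n) (fun A : Finset (Edg n) => ∃ S : Finset (Fin n),
        2 * d * (S.card : ℝ) + ε1 * n ≤ eo (gr A) S) ≤ η / 4 := by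
    have b1 := hN1 n n1
    have b2 := hN2 n n2
    have b3 := hN3 n n3
    have b4 : (1:ℝ) ≤ Pr (c0 / n) (fun A : Finset (Edg n) => ∀ S : Finset (Fin n),
        eo (gr A) S ≤ 2 * d * S.card) + (Pr (c0 / n) (fun A : Finset (Edg n) => ¬ Sp 4 ε0 (gr A)) +
        Pr (c0 / n) (fun A : Finset (Edg n) => ∃ S : Finset (Fin n),
        ε0 * n ≤ S.card ∧ 2 * d * S.card ≤ eo (gr A) S + 0)) := by
      refine le_trans ?_ (add_le_add_right (Pr_or_le p0' p1' _ _) _)
      refine le_trans ?_ (Pr_or_le p0' p1' _ _)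
      have : (1:ℝ) = Pr (c0 / n) (fun _ : Finset (Edg n) => True) := by
        unfold Pr
        simp only [if_true]
        rw [Ex_const]
      rw [this]
      apply Pr_mono p0' p1'
      intro A _
      by_cases e1 : ∀ S : Finset (Fin n), eo (gr A) S ≤ 2 * d * S.card
      · exact Or.inl e1
      · right
        by_cases e2 : Sp 4 ε0 (gr A)
        · right
          push Not at e1
          obtain ⟨S, hS⟩ := e1
          refine ⟨S, ?_, by omega⟩
          by_contra hlt
          push Not at hlt
          have hne : S.Nonempty := by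
            rw [nonempty_iff_ne_empty]
            rintro rfl
            simp [eo] at hS
          have := e2 S hne hlt.le
          have h2d : 2 * 2 * S.card ≤ 2 * d * S.card :=
            Nat.mul_le_mul_right _ (Nat.mul_le_mul_left _ hd)
          omega
        · exact Or.inl e2
    linarith
  have hdense := NullAux.clS_dense (q := q) hc0 hε1 (n := n) (by linarith) (by omega)
  have hth := NullAux.th_lower p0 p1 hi (by
    rw [← mul_div_assoc, div_le_one hnR]
    linarith)
  obtain ⟨t0, t1⟩ := NullAux.th_mem p0 p1 i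
  have hθ : μ ≤ th (c / n) i * (a * n) := by
    have e1 : 2 * μ ≤ I0 * (c * a) := by
      rwa [div_le_iff₀ (by positivity)] at hI0
    calc μ ≤ I0 * (c * a) / 2 := by linarith
      _ = (I0 * (c / n) / 2) * (a * n) := by field_simp
      _ ≤ _ := mul_le_mul_of_nonneg_right hth (by positivity)
  have hμη : 8 / μ ≤ η / 2 := by
    rw [div_le_iff₀ hμ0, hμ]
    have : η / 2 * (2 * d + 16 / η) = η * d + 8 := by field_simp; ring
    rw [this]
    have : 0 ≤ η * d := by positivity
    linarith
  calc Ex (c / n) (fun A : Finset (Edg n) => Ex (th (c / n) i) (fun T : Finset (Fin n) =>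
        if rho (PhiR q (gr A) T) < a / 2 then 1 else 0))
      ≤ Ex (c / n) (fun A : Finset (Edg n) =>
        (if ((NullAux.clS q A).card : ℝ) < ε1 / (8 * c) * n ^ 2 then 1 else 0) + η / 2) := by
        apply Ex_mono p0 p1
        intro A
        split_ifs with hA
        · have : Ex (th (c / n) i) (fun T : Finset (Fin n) =>
              if rho (PhiR q (gr A) T) < a / 2 then (1:ℝ) else 0) ≤ 1 := Pr_le_one t0 t1 _
          linarith
        · have hA' : 2 * a * n ^ 2 ≤ ((NullAux.clS q A).card : ℝ) := by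
            have : 2 * a = ε1 / (8 * c) := by rw [ha]; field_simp; norm_num
            rw [this]
            exact not_lt.1 hA
          have hμd : 2 * (d:ℝ) ≤ μ := by
            have : 0 ≤ 16 / η := by positivity
            linarith
          have := NullAux.pin_many hq ha0 (by omega) t0 t1 hμd hμ0 hθ A hA'
          linarith
    _ = Pr (c / n) (fun A : Finset (Edg n) =>
          ((NullAux.clS q A).card : ℝ) < ε1 / (8 * c) * n ^ 2) + η / 2 := by
        rw [Ex_add, Ex_const]
        rfl
    _ ≤ η := by linarith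

end Pool.Agent.GR
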