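import Pool.Agent.Lib_MP_264ef2_co.Good

set_option autoImplicit false

namespace Pool.Agent.GR

open Finset
open scoped Classical

variable {n d : ℕ} {q : Mot n d}

namespace Rigid

theorem PK_apply {K : Finset (Fin n)} (m : Mot n d) (v : Fin n) :
    PK K m v = if v ∈ K then m v else 0 := rfl

theorem PK_eq_zero {K : Finset (Fin n)} (m : Mot n d) :
    PK K m = 0 ↔ ∀ v ∈ K, m v = 0 := by
  constructor
  · intro h v hv
    have := congrFun h v
    rwa [PK_apply, if_pos hv] at this
  · intro h
    funext v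
    rw [PK_apply]
    split_ifs with hv
    · exact h v hv
    · rfl

theorem PK_comp {K L : Finset (Fin n)} (hKL : K ⊆ L) (m : Mot n d) :
    PK K (PK L m) = PK K m := by
  funext v
  simp only [PK_apply]
  split_ifs with h1 h2
  · rfl
  · exact absurd (hKL h1) h2
  · rfl

theorem map_PK_PK {K L : Finset (Fin n)} (hKL : K ⊆ L) (W : Submodule ℝ (Mot n d)) :
    (W.map (PK L)).map (PK K) = W.map (PK K) := by
  rw [← Submodule.map_comp]
  congr 1
  exact LinearMap.ext fun m => PK_comp hKL m

theorem finrank_map_of_inj {V V' : Type*} [AddCommGroup V] [Module ℝ V] [AddCommGroup V']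
    [Module ℝ V'] [FiniteDimensional ℝ V] (f : V →ₗ[ℝ] V') (W : Submodule ℝ V)
    (h : ∀ x ∈ W, f x = 0 → x = 0) :
    Module.finrank ℝ (W.map f) = Module.finrank ℝ W := by
  have h1 : LinearMap.range (f.domRestrict W) = W.map f := LinearMap.range_domRestrict W f
  rw [← h1]
  apply LinearMap.finrank_range_of_inj
  rw [← LinearMap.ker_eq_bot, LinearMap.ker_eq_bot']
  intro x hx
  exact Subtype.ext (h x.1 x.2 hx)

theorem inj_of_finrank_map {V V' : Type*} [AddCommGroup V] [Module ℝ V] [AddCommGroup V']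
    [Module ℝ V'] [FiniteDimensional ℝ V] (f : V →ₗ[ℝ] V') (W : Submodule ℝ V)
    (h : Module.finrank ℝ W ≤ Module.finrank ℝ (W.map f)) :
    ∀ x ∈ W, f x = 0 → x = 0 := by
  intro x hx hfx
  have h1 : LinearMap.range (f.domRestrict W) = W.map f := LinearMap.range_domRestrict W f
  have h2 := LinearMap.finrank_range_add_finrank_ker (f.domRestrict W)
  rw [h1] at h2
  have h3 : Module.finrank ℝ (LinearMap.ker (f.domRestrict W)) = 0 := by omega
  rw [Submodule.finrank_eq_zero] at h3
  have h4 : (⟨x, hx⟩ : W) ∈ LinearMap.ker (f.domRestrict W) := by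
    rw [LinearMap.mem_ker]
    exact hfx
  rw [h3, Submodule.mem_bot] at h4
  exact congrArg Subtype.val h4

theorem rd_mono {G : SimpleGraph (Fin n)} {K L : Finset (Fin n)} (hKL : K ⊆ L) :
    rd q G K ≤ rd q G L := by
  unfold rd
  rw [← map_PK_PK hKL]
  exact Submodule.finrank_map_le _ _

theorem mem_Mo_of_vanish {G : SimpleGraph (Fin n)} {K : Finset (Fin n)} {m : Mot n d}
    (hm : m ∈ Mo q G ∅) (h : ∀ v ∈ K, m v = 0) : m ∈ Mo q G K :=
  ⟨h, hm.2⟩

/-- the skew matrix with upper triangular entries `c` -/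
noncomputable def sk (c : {p : Fin d × Fin d // p.1 < p.2} → ℝ) : Matrix (Fin d) (Fin d) ℝ :=
  Matrix.of fun i j => if h : i < j then c ⟨(i, j), h⟩ else
    if h' : j < i then - c ⟨(j, i), h'⟩ else 0

theorem sk_add (c c' : {p : Fin d × Fin d // p.1 < p.2} → ℝ) : sk (c + c') = sk c + sk c' := by
  ext i j
  simp only [sk, Matrix.of_apply, Matrix.add_apply, Pi.add_apply]
  split_ifs <;> ring

theorem sk_smul (r : ℝ) (c : {p : Fin d × Fin d // p.1 < p.2} → ℝ) : sk (r • c) = r • sk c := by
  ext i j
  simp only [sk, Matrix.of_apply, Matrix.smul_apply, Pi.smul_apply, smul_eq_mul]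
  split_ifs <;> ring

theorem sk_transpose (c : {p : Fin d × Fin d // p.1 < p.2} → ℝ) :
    (sk c).transpose = - sk c := by
  ext i j
  simp only [sk, Matrix.transpose_apply, Matrix.of_apply, Matrix.neg_apply]
  rcases lt_trichotomy i j with h | h | h
  · rw [dif_neg (not_lt.mpr h.le), dif_pos h, dif_pos h]
  · subst h; simp
  · rw [dif_pos h, dif_neg (not_lt.mpr h.le), dif_pos h, neg_neg]

theorem sk_eq_zero {c : {p : Fin d × Fin d // p.1 < p.2} → ℝ} (h : sk c = 0) : c = 0 := by
  funext p
  have := congrFun (congrFun h p.1.1) p.1.2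
  simp only [sk, Matrix.of_apply, Matrix.zero_apply] at this
  rw [dif_pos p.2] at this
  exact this

theorem skew_dot {A : Matrix (Fin d) (Fin d) ℝ} (hA : A.transpose = - A) (x : Fin d → ℝ) :
    x ⬝ᵥ (A.mulVec x) = 0 := by
  have h1 : x ⬝ᵥ (A.mulVec x) = (A.transpose.mulVec x) ⬝ᵥ x := by
    rw [Matrix.mulVec_transpose, Matrix.dotProduct_mulVec]
  rw [hA, Matrix.neg_mulVec, neg_dotProduct, dotProduct_comm (A.mulVec x) x] at h1
  linarith

/-- trivial motions -/
noncomputable def triv (q : Mot n d) :
    (({p : Fin d × Fin d // p.1 < p.2} → ℝ) × (Fin d → ℝ)) →ₗ[ℝ] Mot n d where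
  toFun x := fun v => (sk x.1).mulVec (q v) + x.2
  map_add' x y := by
    funext v
    simp only [Prod.fst_add, Prod.snd_add, sk_add, Matrix.add_mulVec, Pi.add_apply]
    abel
  map_smul' r x := by
    funext v
    simp only [Prod.smul_fst, Prod.smul_snd, sk_smul, Matrix.smul_mulVec, Pi.smul_apply,
      RingHom.id_apply, smul_add]

theorem triv_mem (q : Mot n d) (G : SimpleGraph (Fin n))
    (x : ({p : Fin d × Fin d // p.1 < p.2} → ℝ) × (Fin d → ℝ)) : triv q x ∈ Mo q G ∅ := by
  refine ⟨by simp, fun u w _ => ?_⟩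
  have h : triv q x u - triv q x w = (sk x.1).mulVec (q u - q w) := by
    simp only [triv, LinearMap.coe_mk, AddHom.coe_mk, Matrix.mulVec_sub]
    abel
  rw [h]
  exact skew_dot (sk_transpose _) _

theorem card_pairs (d : ℕ) : Fintype.card {p : Fin d × Fin d // p.1 < p.2} = d * (d - 1) / 2 := by
  rw [Fintype.card_subtype]
  have h1 : (univ.filter (fun p : Fin d × Fin d => p.1 < p.2)).card =
      ∑ j : Fin d, (univ.filter (fun i : Fin d => i < j)).card := by
    rw [Finset.card_eq_sum_ones, Finset.sum_filter, Fintype.sum_prod_type_right]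
    refine Finset.sum_congr rfl fun j _ => ?_
    rw [Finset.card_eq_sum_ones, Finset.sum_filter]
  rw [h1]
  have h2 : ∀ j : Fin d, (univ.filter (fun i : Fin d => i < j)).card = (j : ℕ) := by
    intro j
    rw [← Fin.card_Iio j]
    congr 1
    ext i
    simp
  rw [Finset.sum_congr rfl fun j _ => h2 j, Fin.sum_univ_eq_sum_range (fun i => i) d,
    Finset.sum_range_id]

theorem triv_inj (hq : Good q) {K : Finset (Fin n)} (hK : d ≤ K.card)
    (x : ({p : Fin d × Fin d // p.1 < p.2} → ℝ) × (Fin d → ℝ))
    (hx : ∀ v ∈ K, triv q x v = 0) : x = 0 := by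
  rcases Nat.eq_zero_or_pos d with hd | hd
  · subst hd
    have : Subsingleton (({p : Fin 0 × Fin 0 // p.1 < p.2} → ℝ) × (Fin 0 → ℝ)) := by
      have : IsEmpty {p : Fin 0 × Fin 0 // p.1 < p.2} := ⟨fun p => p.1.1.elim0⟩
      infer_instance
    exact Subsingleton.elim _ _
  have hKne : K.Nonempty := Finset.card_pos.mp (by omega)
  obtain ⟨v, hv⟩ := hKne
  obtain ⟨U, hU, hUc⟩ := Finset.exists_subset_card_eq (s := K.erase v) (n := d - 1)
    (by rw [Finset.card_erase_of_mem hv]; omega)
  have hvU : v ∉ U := fun h => (Finset.notMem_erase v K) (hU h)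
  have hli := good_indep hq v U hvU (by omega)
  set A := sk x.1 with hA
  have hAt : A.transpose = -A := sk_transpose _
  have hker : ∀ u ∈ U, A.mulVec (q v - q u) = 0 := by
    intro u hu
    have h1 := hx v hv
    have h2 := hx u (Finset.mem_of_mem_erase (hU hu))
    simp only [triv, LinearMap.coe_mk, AddHom.coe_mk] at h1 h2
    rw [Matrix.mulVec_sub]
    have : A.mulVec (q v) - A.mulVec (q u) = (A.mulVec (q v) + x.2) - (A.mulVec (q u) + x.2) := by
      abel
    rw [this, h1, h2, sub_zero]
  -- the image of `A` is contained in the orthogonal complement of the span, as is the ...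
  have hA0 : A = 0 := by
    -- take x y arbitrary; A x is orthogonal to all q v - q u
    have horth : ∀ (y : Fin d → ℝ), ∀ u ∈ U, (q v - q u) ⬝ᵥ (A.mulVec y) = 0 := by
      intro y u hu
      rw [Matrix.dotProduct_mulVec, ← Matrix.mulVec_transpose, hAt, Matrix.neg_mulVec, hker u hu]
      simp
    -- range of A has dimension at most one
    by_contra hne
    -- there is y with A y ≠ 0
    obtain ⟨y, hy⟩ : ∃ y, A.mulVec y ≠ 0 := by
      by_contra hall
      push Not at hall
      apply hne
      ext i j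
      have := congrFun (hall (Pi.single j 1)) i
      simpa using this
    set z := A.mulVec y with hz
    -- the family (q v - q u)_u together with z is linearly independent, hence spans
    have hspan : ∀ w : Fin d → ℝ, (∀ u ∈ U, (q v - q u) ⬝ᵥ w = 0) → z ⬝ᵥ w = 0 → w = 0 := by
      intro w hw1 hw2
      -- consider the linear map to (U → ℝ) × ℝ
      set S : Submodule ℝ (Fin d → ℝ) := Submodule.span ℝ (Set.range fun u : U => q v - q u)
        with hS
      have hSdim : Module.finrank ℝ S = d - 1 := by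
        rw [hS, finrank_span_eq_card hli, Fintype.card_coe, hUc]
      have hSorth : ∀ s ∈ S, ∀ w : Fin d → ℝ, (∀ u ∈ U, (q v - q u) ⬝ᵥ w = 0) → s ⬝ᵥ w = 0 := by
        intro s hs w hw
        refine Submodule.span_induction (p := fun s _ => s ⬝ᵥ w = 0) ?_ ?_ ?_ ?_ hs
        · rintro _ ⟨u, rfl⟩
          exact hw u.1 u.2
        · simp
        · intro a b _ _ ha hb
          rw [add_dotProduct, ha, hb, add_zero]
        · intro r a _ ha
          rw [smul_dotProduct, ha, smul_zero]
      have hznot : z ∉ S := by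
        intro hzS
        have : z ⬝ᵥ z = 0 := hSorth z hzS z (horth y)
        exact hy (dotProduct_self_eq_zero.mp this)
      have hlt : S < S ⊔ Submodule.span ℝ {z} := by
        refine lt_of_le_of_ne le_sup_left ?_
        intro heq
        apply hznot
        rw [heq]
        exact Submodule.mem_sup_right (Submodule.mem_span_singleton_self z)
      have hdim := Submodule.finrank_lt_finrank_of_lt hlt
      have htop : S ⊔ Submodule.span ℝ {z} = ⊤ := by
        apply Submodule.eq_top_of_finrank_eq
        have h1 := Submodule.finrank_le (S ⊔ Submodule.span ℝ {z})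
        rw [Module.finrank_fin_fun] at h1 ⊢
        omega
      have hwmem : w ∈ S ⊔ Submodule.span ℝ {z} := by rw [htop]; trivial
      obtain ⟨s, hs, t, ht, hst⟩ := Submodule.mem_sup.mp hwmem
      obtain ⟨r, hr⟩ := Submodule.mem_span_singleton.mp ht
      have : w ⬝ᵥ w = 0 := by
        conv_lhs => rw [← hst]
        rw [hst, ← hst, ← hr]
        rw [add_dotProduct, smul_dotProduct]
        rw [hr, hst, hSorth s hs w hw1, hw2]
        simp
      exact dotProduct_self_eq_zero.mp this
    -- A z is zero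
    have hAz : A.mulVec z = 0 := by
      apply hspan
      · exact horth z
      · exact skew_dot hAt z
    -- so z = A y is orthogonal to itself
    have : z ⬝ᵥ z = 0 := by
      conv_lhs => rw [hz]
      rw [dotProduct_comm, Matrix.dotProduct_mulVec, ← Matrix.mulVec_transpose, hAt,
        Matrix.neg_mulVec, ← hz, hAz]
      simp
    exact hy (dotProduct_self_eq_zero.mp this)
  have hc : x.1 = 0 := sk_eq_zero (by rw [← hA, hA0])
  have hb : x.2 = 0 := by
    have h1 := hx v hv
    simp only [triv, LinearMap.coe_mk, AddHom.coe_mk] at h1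
    rw [← hA, hA0, Matrix.zero_mulVec, zero_add] at h1
    exact h1
  exact Prod.ext hc hb

end Rigid

open Rigid

theorem Rg_empty (q : Mot n d) (G : SimpleGraph (Fin n)) : Rg q G ∅ := by
  unfold Rg rd
  have h : (Mo q G ∅).map (PK ∅) = ⊥ := by
    rw [eq_bot_iff]
    rintro _ ⟨m, _, rfl⟩
    rw [Submodule.mem_bot, PK_eq_zero]
    simp
  rw [h, finrank_bot]
  exact Nat.zero_le _

theorem Rg_mono {G G' : SimpleGraph (Fin n)} {K K' : Finset (Fin n)} (hG : G ≤ G') (hK : K' ⊆ K)
    (h : Rg q G K) : Rg q G' K' := by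
  refine le_trans ?_ h
  refine le_trans (rd_mono hK) ?_
  unfold rd
  exact Submodule.finrank_mono (Submodule.map_mono (Mo_anti hG (subset_refl _)))

/-- trivial motions -/
theorem rd_ge (hq : Good q) (G : SimpleGraph (Fin n)) (K : Finset (Fin n)) (hK : d ≤ K.card) :
    d * (d + 1) / 2 ≤ rd q G K := by
  have h1 : Module.finrank ℝ (({p : Fin d × Fin d // p.1 < p.2} → ℝ) × (Fin d → ℝ)) =
      d * (d + 1) / 2 := by
    rw [Module.finrank_prod, Module.finrank_fintype_fun_eq_card, Module.finrank_fin_fun,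
      card_pairs]
    rcases Nat.eq_zero_or_pos d with hd | hd
    · subst hd; rfl
    · obtain ⟨e, rfl⟩ : ∃ e, d = e + 1 := ⟨d - 1, by omega⟩
      have : (e + 1) * (e + 1 + 1) = (e + 1) * (e + 1 - 1) + 2 * (e + 1) := by
        simp only [Nat.add_sub_cancel]; ring
      rw [this, Nat.add_mul_div_left _ _ (by norm_num)]
  rw [← h1]
  have h2 : Function.Injective ((PK (d := d) K).comp (triv q)) := by
    rw [← LinearMap.ker_eq_bot, LinearMap.ker_eq_bot']
    intro x hx
    rw [LinearMap.comp_apply, PK_eq_zero] at hx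
    exact triv_inj hq hK x hx
  rw [← LinearMap.finrank_range_of_inj h2]
  unfold rd
  apply Submodule.finrank_mono
  rintro _ ⟨x, rfl⟩
  exact ⟨triv q x, triv_mem q G x, rfl⟩

/-- a set all of whose vertices are pinned by `K` -/
theorem rd_pin {G : SimpleGraph (Fin n)} {K L : Finset (Fin n)} (hKL : K ⊆ L)
    (hw : ∀ m ∈ Mo q G K, ∀ w ∈ L, m w = 0) : rd q G L = rd q G K := by
  unfold rd
  rw [← map_PK_PK hKL]
  symm
  apply finrank_map_of_inj
  rintro _ ⟨m, hm, rfl⟩ h0
  rw [PK_comp hKL, PK_eq_zero] at h0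
  rw [PK_eq_zero]
  exact hw m (mem_Mo_of_vanish hm h0)

theorem rd_insert_eq {G : SimpleGraph (Fin n)} {K : Finset (Fin n)} {w : Fin n}
    (hw : ∀ m ∈ Mo q G K, m w = 0) : rd q G (insert w K) = rd q G K := by
  apply rd_pin (Finset.subset_insert _ _)
  intro m hm v hv
  rcases Finset.mem_insert.mp hv with h | h
  · rw [h]; exact hw m hm
  · exact hm.1 v h

theorem pin_of_nbrs (hq : Good q) {G : SimpleGraph (Fin n)} {K : Finset (Fin n)} {w : Fin n}
    (h : d ≤ (nb G w ∩ K).card) : ∀ m ∈ Mo q G K, m w = 0 := by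
  intro m hm
  refine good_zero hq w (nb G w ∩ K) ?_ h (m w) ?_
  · intro hw
    have := (Finset.mem_inter.mp hw).1
    simp [nb] at this
  · intro u hu
    obtain ⟨hu1, hu2⟩ := Finset.mem_inter.mp hu
    have hadj : G.Adj w u := by simpa [nb] using hu1
    have := hm.2 w u hadj
    rwa [hm.1 u hu2, sub_zero] at this

theorem pin_of_Rg (hq : Good q) {G : SimpleGraph (Fin n)} {K K' : Finset (Fin n)}
    (h : Rg q G K') (hK : K ⊆ K') (hc : d ≤ K.card) : ∀ m ∈ Mo q G K, ∀ w ∈ K', m w = 0 := by
  intro m hm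
  have h1 : rd q G K' ≤ rd q G K := le_trans h (rd_ge hq G K hc)
  have h2 := inj_of_finrank_map (PK (d := d) K) ((Mo q G ∅).map (PK K')) (by
    rw [map_PK_PK hK]; exact h1) (PK K' m) ⟨m, ⟨by simp, hm.2⟩, rfl⟩ (by
    rw [PK_comp hK, PK_eq_zero]; exact hm.1)
  exact (PK_eq_zero m).mp h2

theorem Rg_union (hq : Good q) {G : SimpleGraph (Fin n)} {K K' : Finset (Fin n)}
    (h : Rg q G K) (h' : Rg q G K') (hc : d ≤ (K ∩ K').card) : Rg q G (K ∪ K') := by
  unfold Rg
  rw [rd_pin (K := K ∩ K') (L := K ∪ K')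
    (Finset.inter_subset_left.trans Finset.subset_union_left)]
  · exact le_trans (rd_mono Finset.inter_subset_left) h
  · intro m hm w hw
    rcases Finset.mem_union.mp hw with hw | hw
    · exact pin_of_Rg hq h Finset.inter_subset_left hc m hm w hw
    · exact pin_of_Rg hq h' Finset.inter_subset_right hc m hm w hw

theorem exists_MaxRg {G : SimpleGraph (Fin n)} {K : Finset (Fin n)} (h : Rg q G K) :
    ∃ L, K ⊆ L ∧ MaxRg q G L := by
  obtain ⟨L, hL, hmax⟩ := Finset.exists_max_image
    (univ.filter (fun L : Finset (Fin n) => K ⊆ L ∧ Rg q G L)) Finset.card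
    ⟨K, by simp [h]⟩
  rw [Finset.mem_filter] at hL
  refine ⟨L, hL.2.1, hL.2.2, fun K' hK' hR => ?_⟩
  have := hmax K' (by simp [hL.2.1.trans hK', hR])
  exact (Finset.eq_of_subset_of_card_le hK' this).symm

/-- a maximal rigid set contains everything it pins -/
theorem MaxRg.mem_of_pin {G : SimpleGraph (Fin n)} {K : Finset (Fin n)} (h : MaxRg q G K)
    {w : Fin n} (hw : ∀ m ∈ Mo q G K, m w = 0) : w ∈ K := by
  have h1 : Rg q G (insert w K) := by
    unfold Rg
    rw [rd_insert_eq hw]
    exact h.1
  rw [← h.2 _ (Finset.subset_insert _ _) h1]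
  exact Finset.mem_insert_self _ _

theorem MaxRg.nb_le (hq : Good q) {G : SimpleGraph (Fin n)} {K : Finset (Fin n)}
    (h : MaxRg q G K) {w : Fin n} (hw : w ∉ K) : (nb G w ∩ K).card + 1 ≤ d := by
  by_contra hcon
  exact hw (h.mem_of_pin (pin_of_nbrs hq (by omega)))

/-- a rigid set spans many edges -/
theorem Rg_edges (q : Mot n d) {G : SimpleGraph (Fin n)} {K : Finset (Fin n)}
    (h : Rg q (ind G K) K) : 2 * (d * K.card) ≤ eo G K + d * (d + 1) := by
  have h1 := finrank_Mo_ge q (ind G K) ∅
  have h2 : eo (ind G K) univ = eo G K := by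
    unfold eo
    congr 1
    ext e
    simp [ind]
    tauto
  have h3 : eo (ind G K) ∅ = 0 := by simp [eo]
  rw [h2, h3] at h1
  -- dimension of Mo is at most rd + d * |Kᶜ|
  have h4 : Module.finrank ℝ (Mo q (ind G K) ∅) ≤ rd q (ind G K) K + d * Kᶜ.card := by
    have h5 := LinearMap.finrank_range_add_finrank_ker ((PK (d := d) K).domRestrict (Mo q (ind G K) ∅))
    rw [LinearMap.range_domRestrict] at h5
    have h6 : Module.finrank ℝ (LinearMap.ker ((PK (d := d) K).domRestrict (Mo q (ind G K) ∅))) ≤
        d * Kᶜ.card := by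
      let f : (LinearMap.ker ((PK (d := d) K).domRestrict (Mo q (ind G K) ∅))) →ₗ[ℝ]
          (↥(Kᶜ : Finset (Fin n)) → Fin d → ℝ) :=
        { toFun := fun m v => (m : Mo q (ind G K) ∅).1 v.1
          map_add' := fun a b => rfl
          map_smul' := fun a b => rfl }
      have hf : Function.Injective f := by
        intro m m' hm
        apply Subtype.ext
        apply Subtype.ext
        funext v
        by_cases hv : v ∈ K
        · have h7 : PK K (m : Mo q (ind G K) ∅).1 = 0 := m.2
          have h8 : PK K (m' : Mo q (ind G K) ∅).1 = 0 := m'.2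
          rw [(PK_eq_zero _).mp h7 v hv, (PK_eq_zero _).mp h8 v hv]
        · exact congrFun hm ⟨v, by simpa using hv⟩
      have := LinearMap.finrank_le_finrank_of_injective hf
      rw [Module.finrank_pi_fintype] at this
      simp only [Module.finrank_fin_fun, Finset.sum_const, Finset.card_univ, Fintype.card_coe,
        smul_eq_mul] at this
      rw [mul_comm d]
      exact this
    unfold rd
    omega
  have h7 : rd q (ind G K) K ≤ d * (d + 1) / 2 := h
  have h8 : 2 * (d * (d + 1) / 2) ≤ d * (d + 1) := Nat.mul_div_le _ _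
  have h9 : K.card + Kᶜ.card = n := by
    rw [Finset.card_add_card_compl, Fintype.card_fin]
  have h10 : (∅ : Finset (Fin n))ᶜ.card = n := by simp
  rw [h10] at h1
  have h11 : d * n = d * K.card + d * Kᶜ.card := by rw [← Nat.mul_add, h9]
  rw [h11] at h1
  omega

namespace Rigid

theorem finrank_clique (hq : Good q) (D : Finset (Fin n)) (hD : D.card ≤ d + 1) :
    Module.finrank ℝ (Mo q (ind ⊤ D) Dᶜ) + D.card * (D.card - 1) / 2 = d * D.card := by
  induction D using Finset.induction_on with
  | empty =>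
    have : Mo q (ind ⊤ ∅) (∅ : Finset (Fin n))ᶜ = ⊥ := by
      rw [eq_bot_iff]
      intro m hm
      rw [Submodule.mem_bot]
      funext v
      exact hm.1 v (by simp)
    rw [this]
    simp
  | insert w D hw ih =>
    rw [Finset.card_insert_of_notMem hw] at hD ⊢
    have ih' := ih (by omega)
    have h1 : nb (ind ⊤ (insert w D)) w = D := by
      ext v
      simp only [nb, ind, Finset.mem_filter, Finset.mem_univ, true_and, SimpleGraph.top_adj,
        Finset.mem_insert]
      constructor
      · rintro ⟨h1, _, h3⟩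
        rcases h3 with h3 | h3
        · exact absurd h3.symm h1
        · exact h3
      · intro hv
        refine ⟨?_, by simp, Or.inr hv⟩
        rintro rfl
        exact hw hv
    have h2 : del (ind (⊤ : SimpleGraph (Fin n)) (insert w D)) {w} = ind ⊤ D := by
      ext a b
      simp only [ind, SimpleGraph.top_adj, Finset.mem_insert, Finset.mem_compl,
        Finset.mem_singleton]
      constructor
      · rintro ⟨⟨h1, h2, h3⟩, h4, h5⟩
        exact ⟨h1, h2.resolve_left h4, h3.resolve_left h5⟩
      · rintro ⟨h1, h2, h3⟩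
        refine ⟨⟨h1, Or.inr h2, Or.inr h3⟩, ?_, ?_⟩
        · rintro rfl; exact hw h2
        · rintro rfl; exact hw h3
    have h3 := finrank_del hq (ind ⊤ (insert w D)) w (by rw [h1]; omega) (insert w D)ᶜ (by simp)
    rw [h1, h2] at h3
    have h4 : nb (ind (⊤ : SimpleGraph (Fin n)) D) w = ∅ := by
      ext v
      simp only [nb, ind, Finset.mem_filter, Finset.mem_univ, true_and, Finset.notMem_empty,
        iff_false]
      rintro ⟨_, h, _⟩
      exact hw h
    have h5 := finrank_insert_isolated q (ind ⊤ D) w h4 (insert w D)ᶜ (by simp)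
    have h6 : insert w (insert w D)ᶜ = Dᶜ := by
      ext v
      simp only [Finset.mem_insert, Finset.mem_compl]
      constructor
      · rintro (rfl | h)
        · exact hw
        · exact fun h' => h (Or.inr h')
      · intro h
        by_cases hv : v = w
        · exact Or.inl hv
        · right
          rintro (h' | h')
          · exact hv h'
          · exact h h'
    rw [h6] at h5
    have h7 : (D.card + 1) * (D.card + 1 - 1) / 2 = D.card * (D.card - 1) / 2 + D.card := by
      rcases Nat.eq_zero_or_pos D.card with h0 | h0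
      · rw [h0]
      · obtain ⟨e, he⟩ : ∃ e, D.card = e + 1 := ⟨D.card - 1, by omega⟩
        rw [he]
        have : (e + 1 + 1) * (e + 1 + 1 - 1) = (e + 1) * (e + 1 - 1) + 2 * (e + 1) := by
          simp only [Nat.add_sub_cancel]; ring
        rw [this, Nat.add_mul_div_left _ _ (by norm_num)]
    rw [h7, Nat.mul_add, mul_one]
    omega

end Rigid

/-- a set of `d` vertices which is a clique in the closure is rigid -/
theorem Rg_clique (hq : Good q) {G : SimpleGraph (Fin n)} {D : Finset (Fin n)} (hD : D.card = d)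
    (h : ∀ u ∈ D, ∀ w ∈ D, ∀ m ∈ Mo q G ∅, (q u - q w) ⬝ᵥ (m u - m w) = 0) : Rg q G D := by
  have h1 : (Mo q G ∅).map (PK D) ≤ Mo q (ind ⊤ D) Dᶜ := by
    rintro _ ⟨m, hm, rfl⟩
    refine ⟨fun t ht => ?_, fun u w huw => ?_⟩
    · rw [PK_apply, if_neg (Finset.mem_compl.mp ht)]
    · rw [PK_apply, PK_apply, if_pos huw.2.1, if_pos huw.2.2]
      exact h u huw.2.1 w huw.2.2 m hm
  have h2 := Submodule.finrank_mono h1
  have h3 := finrank_clique hq D (by omega)
  rw [hD] at h3
  unfold Rg rd
  have h4 : d * (d + 1) / 2 + d * (d - 1) / 2 = d * d := by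
    rcases Nat.eq_zero_or_pos d with h0 | h0
    · rw [h0]
    · obtain ⟨e, he⟩ : ∃ e, d = e + 1 := ⟨d - 1, by omega⟩
      rw [he]
      have : (e + 1) * (e + 1 + 1) = (e + 1) * (e + 1 - 1) + 2 * (e + 1) := by
        simp only [Nat.add_sub_cancel]; ring
      rw [this, Nat.add_mul_div_left _ _ (by norm_num)]
      have h5 : 2 ∣ (e + 1) * (e + 1 - 1) := by
        rw [Nat.add_sub_cancel, mul_comm]
        exact (Nat.even_mul_succ_self e).two_dvd
      obtain ⟨k, hk⟩ := h5
      rw [hk, Nat.mul_div_cancel_left _ (by norm_num)]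
      have h6 : (e + 1) * (e + 1) = (e + 1) * (e + 1 - 1) + (e + 1) := by
        simp only [Nat.add_sub_cancel]; ring
      rw [h6, hk]
      omega
  omega

end Pool.Agent.GR
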