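import Pool.Agent.Lib_MP_264ef2_co.Prob
import Pool.Agent.Lib_MP_264ef2_co.Rigid

set_option autoImplicit false

namespace Pool.Agent.GR

open Finset
open scoped Classical

namespace Unground

variable {n d : ℕ}

/-- the pair `u, w` lies in the closure of the framework -/
def Cl (q : Mot n d) (G : SimpleGraph (Fin n)) (u w : Fin n) : Prop :=
  ∀ m ∈ Mo q G ∅, (q u - q w) ⬝ᵥ (m u - m w) = 0

theorem Cl_refl (q : Mot n d) (G : SimpleGraph (Fin n)) (u : Fin n) : Cl q G u u := by
  intro m _
  simp

theorem Cl_symm {q : Mot n d} {G : SimpleGraph (Fin n)} {u w : Fin n} (h : Cl q G u w) :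
    Cl q G w u := by
  intro m hm
  have h1 := h m hm
  have h2 : q w - q u = -(q u - q w) := by abel
  have h3 : m w - m u = -(m u - m w) := by abel
  rw [h2, h3, neg_dotProduct_neg, h1]

theorem Cl_mono {q : Mot n d} {G G' : SimpleGraph (Fin n)} (hG : G ≤ G') {u w : Fin n}
    (h : Cl q G u w) : Cl q G' u w :=
  fun m hm => h m (Mo_anti hG (subset_refl _) hm)

theorem Cl_of_adj {q : Mot n d} {G : SimpleGraph (Fin n)} {u w : Fin n} (h : G.Adj u w) :
    Cl q G u w := fun _ hm => hm.2 u w h

/-- non-neighbours in the closure -/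
noncomputable def nn (q : Mot n d) (H : SimpleGraph (Fin n)) (S : Finset (Fin n)) (u : Fin n) :
    Finset (Fin n) := S.filter (fun w => ¬ Cl q H u w)

/-- greedy clique in the closure -/
theorem exists_clique {q : Mot n d} (H : SimpleGraph (Fin n)) (S : Finset (Fin n))
    (s : ℕ) (hS : (S.filter (fun u => s < (nn q H S u).card)).card + d * s + d < S.card) :
    ∀ j ≤ d, ∃ D : Finset (Fin n), D ⊆ S ∧ D.card = j ∧ (∀ u ∈ D, (nn q H S u).card ≤ s) ∧
      ∀ u ∈ D, ∀ w ∈ D, Cl q H u w := by
  intro j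
  induction j with
  | zero => intro _; exact ⟨∅, by simp⟩
  | succ j ih =>
    intro hj
    obtain ⟨D, hDS, hDc, hD1, hD2⟩ := ih (by omega)
    set X := (S.filter (fun u => s < (nn q H S u).card)) ∪ D ∪ D.biUnion (fun u => nn q H S u)
      with hX
    have hXc : X.card < S.card := by
      have h1 : X.card ≤ (S.filter (fun u => s < (nn q H S u).card)).card + D.card +
          (D.biUnion (fun u => nn q H S u)).card :=
        (card_union_le _ _).trans (Nat.add_le_add_right (card_union_le _ _) _)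
      have h2 : (D.biUnion (fun u => nn q H S u)).card ≤ D.card * s :=
        card_biUnion_le_card_mul _ _ _ hD1
      have h3 : D.card * s ≤ d * s := Nat.mul_le_mul_right _ (by omega)
      omega
    obtain ⟨x, hxS, hxX⟩ := exists_mem_notMem_of_card_lt_card hXc
    have hx1 : (nn q H S x).card ≤ s := by
      by_contra hcon
      exact hxX (by simp [hX, hxS, not_le.1 hcon])
    have hx2 : x ∉ D := fun hcon => hxX (by simp [hX, hcon])
    have hx3 : ∀ u ∈ D, Cl q H u x := by
      intro u hu
      by_contra hcon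
      apply hxX
      rw [hX]
      apply mem_union_right
      rw [mem_biUnion]
      exact ⟨u, hu, by simp [nn, hxS, hcon]⟩
    refine ⟨insert x D, insert_subset hxS hDS, by rw [card_insert_of_notMem hx2, hDc], ?_, ?_⟩
    · intro u hu
      rcases mem_insert.1 hu with rfl | hu
      · exact hx1
      · exact hD1 u hu
    · intro u hu w hw
      rw [mem_insert] at hu hw
      rcases hu with hu | hu
      · rcases hw with hw | hw
        · rw [hu, hw]; exact Cl_refl _ _ _
        · rw [hu]; exact Cl_symm (hx3 w hw)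
      · rcases hw with hw | hw
        · rw [hw]; exact hx3 u hu
        · exact hD2 u hu w hw

/-- a rigid set from a nearly complete closure -/
theorem exists_rigid {q : Mot n d} (hq : Good q) (H : SimpleGraph (Fin n)) (S : Finset (Fin n))
    (s : ℕ) (hS : (S.filter (fun u => s < (nn q H S u).card)).card + d * s + d < S.card) :
    ∃ K : Finset (Fin n), Rg q H K ∧ S.card ≤ K.card + d * s := by
  obtain ⟨D, hDS, hDc, hD1, hD2⟩ := exists_clique H S s hS d le_rfl
  refine ⟨S.filter (fun w => ∀ u ∈ D, Cl q H u w), ?_, ?_⟩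
  · have hsub : D ⊆ S.filter (fun w => ∀ u ∈ D, Cl q H u w) := by
      intro w hw
      exact mem_filter.2 ⟨hDS hw, fun u hu => hD2 u hu w hw⟩
    have hpin : ∀ m ∈ Mo q H D, ∀ w ∈ S.filter (fun w => ∀ u ∈ D, Cl q H u w), m w = 0 := by
      intro m hm w hw
      by_cases hwD : w ∈ D
      · exact hm.1 w hwD
      · refine good_zero hq w D hwD hDc.ge (m w) ?_
        intro u hu
        have h1 := (mem_filter.1 hw).2 u hu
        have h2 := Cl_symm h1 m (Mo_anti le_rfl (empty_subset _) hm)
        rwa [hm.1 u hu, sub_zero] at h2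
    have h1 := rd_pin hsub hpin
    have h2 : Rg q H D := Rg_clique hq hDc hD2
    unfold Rg at h2 ⊢
    rw [h1]
    exact h2
  · have h1 : S ⊆ S.filter (fun w => ∀ u ∈ D, Cl q H u w) ∪ D.biUnion (fun u => nn q H S u) := by
      intro w hw
      by_cases h : ∀ u ∈ D, Cl q H u w
      · exact mem_union_left _ (mem_filter.2 ⟨hw, h⟩)
      · push Not at h
        obtain ⟨u, hu, hu'⟩ := h
        apply mem_union_right
        rw [mem_biUnion]
        exact ⟨u, hu, by simp [nn, hw, hu']⟩
    have h2 := (card_le_card h1).trans (card_union_le _ _)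
    have h3 : (D.biUnion (fun u => nn q H S u)).card ≤ D.card * s :=
      card_biUnion_le_card_mul _ _ _ hD1
    rw [hDc] at h3
    omega

/-- pairs inside `S` outside the closure -/
noncomputable def NB (q : Mot n d) (H : SimpleGraph (Fin n)) (S : Finset (Fin n)) :
    Finset (Edg n) :=
  univ.filter (fun e => ∃ u ∈ S, ∃ w ∈ S, (e : Sym2 (Fin n)) = s(u, w) ∧ ¬ Cl q H u w)

theorem sum_nn (q : Mot n d) (H : SimpleGraph (Fin n)) (S : Finset (Fin n)) :
    ∑ u ∈ S, (nn q H S u).card ≤ 2 * (NB q H S).card := by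
  set P := (S ×ˢ S).filter (fun e => ¬ Cl q H e.1 e.2) with hP
  have h1 : P.card = ∑ u ∈ S, (nn q H S u).card := by
    rw [hP, card_filter, sum_product]
    refine sum_congr rfl fun u _ => ?_
    rw [nn, card_filter]
  have hne : ∀ e ∈ P, e.1 ≠ e.2 := by
    intro e he h
    have := (mem_filter.1 he).2
    rw [h] at this
    exact this (Cl_refl _ _ _)
  have h2 : P.card ≤ 2 * ((NB q H S).map ⟨Subtype.val, Subtype.val_injective⟩).card := by
    refine card_le_mul_card_image_of_maps_to (f := fun e : Fin n × Fin n => s(e.1, e.2)) ?_ 2 ?_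
    · intro e he
      have he' := mem_filter.1 he
      have hS := mem_product.1 he'.1
      rw [mem_map]
      refine ⟨⟨s(e.1, e.2), by simpa using hne e he⟩, ?_, rfl⟩
      simp only [NB, mem_filter, mem_univ, true_and]
      exact ⟨e.1, hS.1, e.2, hS.2, rfl, he'.2⟩
    · intro e _
      induction e using Sym2.ind with
      | _ x y =>
        have : (P.filter (fun e : Fin n × Fin n => s(e.1, e.2) = s(x, y))) ⊆
            {(x, y), (y, x)} := by
          intro e he
          have := (mem_filter.1 he).2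
          rw [Sym2.eq_iff] at this
          rw [mem_insert, mem_singleton]
          rcases this with ⟨h, h'⟩ | ⟨h, h'⟩
          · left; exact Prod.ext h h'
          · right; exact Prod.ext h h'
        exact (card_le_card this).trans card_le_two
  rw [card_map] at h2
  omega

theorem card_bad (q : Mot n d) (H : SimpleGraph (Fin n)) (S : Finset (Fin n)) (s : ℕ) :
    (S.filter (fun u => s < (nn q H S u).card)).card * (s + 1) ≤ 2 * (NB q H S).card := by
  refine le_trans ?_ (sum_nn q H S)
  calc (S.filter (fun u => s < (nn q H S u).card)).card * (s + 1)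
      = ∑ u ∈ S.filter (fun u => s < (nn q H S u).card), (s + 1) := by
        rw [sum_const, smul_eq_mul]
    _ ≤ ∑ u ∈ S.filter (fun u => s < (nn q H S u).card), (nn q H S u).card :=
        sum_le_sum fun u hu => (mem_filter.1 hu).2
    _ ≤ ∑ u ∈ S, (nn q H S u).card :=
        sum_le_sum_of_subset_of_nonneg (filter_subset _ _) (fun _ _ _ => Nat.zero_le _)

/-! ### ranks -/

theorem finrank_map_le {M : Submodule ℝ (Mot n d)} {f g : Mot n d →ₗ[ℝ] Mot n d}
    (h : ∀ m ∈ M, g m = 0 → f m = 0) :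
    Module.finrank ℝ (M.map f) ≤ Module.finrank ℝ (M.map g) := by
  have hf := (f.domRestrict M).finrank_range_add_finrank_ker
  have hg := (g.domRestrict M).finrank_range_add_finrank_ker
  have h1 : LinearMap.ker (g.domRestrict M) ≤ LinearMap.ker (f.domRestrict M) := by
    intro m hm
    rw [LinearMap.mem_ker, LinearMap.domRestrict_apply] at hm ⊢
    exact h m m.2 hm
  have h2 := Submodule.finrank_mono h1
  have hf' : LinearMap.range (f.domRestrict M) = M.map f := by
    rw [LinearMap.domRestrict, LinearMap.range_comp, Submodule.range_subtype]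
  have hg' : LinearMap.range (g.domRestrict M) = M.map g := by
    rw [LinearMap.domRestrict, LinearMap.range_comp, Submodule.range_subtype]
  rw [hf'] at hf
  rw [hg'] at hg
  omega

theorem finrank_PK_le (M : Submodule ℝ (Mot n d)) (T : Finset (Fin n)) :
    Module.finrank ℝ (M.map (PK T)) ≤ d * T.card := by
  let E : (T → Fin d → ℝ) →ₗ[ℝ] Mot n d :=
    { toFun := fun m v => if h : v ∈ T then m ⟨v, h⟩ else 0
      map_add' := by
        intro a b; ext v i; by_cases h : v ∈ T <;> simp [h]
      map_smul' := by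
        intro a b; ext v i; by_cases h : v ∈ T <;> simp [h] }
  have h1 : M.map (PK T) ≤ LinearMap.range E := by
    rintro _ ⟨m, _, rfl⟩
    refine ⟨fun v => m v, ?_⟩
    ext v i
    by_cases h : v ∈ T <;> simp [E, PK, h]
  calc Module.finrank ℝ (M.map (PK T)) ≤ Module.finrank ℝ (LinearMap.range E) :=
        Submodule.finrank_mono h1
    _ ≤ Module.finrank ℝ (T → Fin d → ℝ) := LinearMap.finrank_range_le _
    _ = d * T.card := by
        rw [Module.finrank_pi_fintype]
        simp [mul_comm]

theorem rd_le_of_pin {q : Mot n d} {G : SimpleGraph (Fin n)} {S T : Finset (Fin n)}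
    (h : ∀ m ∈ Mo q G T, ∀ w ∈ S, m w = 0) : rd q G S ≤ d * T.card := by
  refine le_trans (finrank_map_le (g := PK T) ?_) (finrank_PK_le _ T)
  intro m hm hT
  have h1 : m ∈ Mo q G T := by
    refine ⟨fun t ht => ?_, hm.2⟩
    have := congrFun hT t
    simpa [PK, ht] using this
  ext v i
  by_cases hv : v ∈ S
  · simp [PK, hv, h m h1 v hv]
  · simp [PK, hv]

theorem rd_lt {q : Mot n d} {G G' : SimpleGraph (Fin n)} {S : Finset (Fin n)} (hG : G ≤ G')
    {u w : Fin n} (hu : u ∈ S) (hw : w ∈ S) (h : ¬ Cl q G u w) (h' : G'.Adj u w) :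
    rd q G' S < rd q G S := by
  apply Submodule.finrank_lt_finrank_of_lt
  refine lt_of_le_of_ne (Submodule.map_mono (Mo_anti hG (subset_refl _))) ?_
  intro heq
  unfold Cl at h
  push Not at h
  obtain ⟨m, hm, hne⟩ := h
  have h1 : PK S m ∈ (Mo q G ∅).map (PK S) := Submodule.mem_map_of_mem hm
  rw [← heq] at h1
  obtain ⟨m', hm', he⟩ := h1
  apply hne
  have hu' : m' u = m u := by
    have := congrFun he u
    simpa [PK, hu] using this
  have hw' : m' w = m w := by
    have := congrFun he w
    simpa [PK, hw] using this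
  rw [← hu', ← hw']
  exact hm'.2 u w h'

/-- a small set of sprinkled edges generates the closure of all of them inside `S` -/
theorem exists_gen (q : Mot n d) (A B : Finset (Edg n)) (S : Finset (Fin n)) :
    ∃ F ⊆ B, F.card ≤ rd q (gr A) S ∧ Disjoint F (NB q (gr (A ∪ F)) S) ∧
      Disjoint (NB q (gr (A ∪ F)) S) B := by
  set P : Finset (Finset (Edg n)) :=
    B.powerset.filter (fun F => F.card + rd q (gr (A ∪ F)) S ≤ rd q (gr A) S) with hP
  have hne : P.Nonempty := ⟨∅, by simp [hP]⟩
  obtain ⟨F, hF, hmax⟩ := P.exists_max_image (fun F => F.card) hne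
  have hF' := mem_filter.1 hF
  have hFB := mem_powerset.1 hF'.1
  have hdis : Disjoint (NB q (gr (A ∪ F)) S) B := by
    rw [disjoint_left]
    intro e he heB
    simp only [NB, mem_filter, mem_univ, true_and] at he
    obtain ⟨u, hu, w, hw, hew, hcl⟩ := he
    have hadj : ∀ X : Finset (Edg n), e ∈ X → (gr X).Adj u w := by
      intro X hX
      rw [gr_adj]
      have hne : u ≠ w := by
        intro h
        rw [h] at hcl
        exact hcl (Cl_refl _ _ _)
      refine ⟨hne, ?_⟩
      convert hX using 1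
      exact Subtype.ext hew.symm
    have heF : e ∉ F := by
      intro h
      exact hcl (Cl_of_adj (hadj _ (mem_union_right _ h)))
    have h1 : rd q (gr (A ∪ insert e F)) S < rd q (gr (A ∪ F)) S :=
      rd_lt (gr_mono (union_subset_union_right (subset_insert _ _))) hu hw hcl
        (hadj _ (mem_union_right _ (mem_insert_self _ _)))
    have h2 : insert e F ∈ P := by
      rw [hP, mem_filter, mem_powerset]
      refine ⟨insert_subset heB hFB, ?_⟩
      rw [card_insert_of_notMem heF]
      have := hF'.2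
      omega
    have h3 := hmax _ h2
    rw [card_insert_of_notMem heF] at h3
    omega
  refine ⟨F, hFB, ?_, ?_, hdis⟩
  · have := hF'.2
    omega
  · exact (hdis.mono_right hFB).symm

theorem NB_anti (q : Mot n d) {G G' : SimpleGraph (Fin n)} (h : G ≤ G') (S : Finset (Fin n)) :
    NB q G' S ⊆ NB q G S := by
  intro e he
  simp only [NB, mem_filter, mem_univ, true_and] at he ⊢
  obtain ⟨u, hu, w, hw, hew, hcl⟩ := he
  exact ⟨u, hu, w, hw, hew, fun hc => hcl (Cl_mono h hc)⟩

theorem card_small (n D0 : ℕ) (hn : 1 ≤ n) :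
    ((univ.filter (fun F : Finset (Edg n) => F.card ≤ D0)).card : ℝ) ≤
      (D0 + 1) * ((n : ℝ) ^ 2) ^ D0 := by
  have h1 : (univ.filter (fun F : Finset (Edg n) => F.card ≤ D0)) ⊆
      (range (D0 + 1)).biUnion (fun k => powersetCard k (univ : Finset (Edg n))) := by
    intro F hF
    rw [mem_biUnion]
    exact ⟨F.card, mem_range.2 (Nat.lt_succ_of_le (mem_filter.1 hF).2),
      mem_powersetCard.2 ⟨subset_univ _, rfl⟩⟩
  have hN : Fintype.card (Edg n) ≤ n ^ 2 := by
    have := Sym2.card_subtype_not_diag (α := Fin n)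
    have h2 : Fintype.card (Edg n) = (Fintype.card (Fin n)).choose 2 := by
      convert this using 1
    rw [h2, Fintype.card_fin]
    exact Nat.choose_le_pow _ _
  have h2 : (univ.filter (fun F : Finset (Edg n) => F.card ≤ D0)).card ≤
      (D0 + 1) * (n ^ 2) ^ D0 := by
    refine (card_le_card h1).trans ?_
    have := card_biUnion_le_card_mul (range (D0 + 1))
      (fun k => powersetCard k (univ : Finset (Edg n))) ((n ^ 2) ^ D0) ?_
    · rwa [card_range] at this
    · intro k hk
      rw [card_powersetCard, card_univ]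
      refine (Nat.choose_le_pow _ _).trans ?_
      refine (Nat.pow_le_pow_left hN k).trans ?_
      exact Nat.pow_le_pow_right (by positivity) (Nat.lt_succ_iff.1 (mem_range.1 hk))
  exact_mod_cast h2

/-- after sprinkling the closure is nearly complete on `S` -/
theorem prob_NB (q : Mot n d) (hn : 1 ≤ n) (A : Finset (Edg n)) (S : Finset (Fin n)) (D0 : ℕ)
    (hD : rd q (gr A) S ≤ D0) (r x : ℝ) (hr0 : 0 ≤ r) (hr1 : r ≤ 1) :
    Pr r (fun B : Finset (Edg n) => x < (NB q (gr (A ∪ B)) S).card) ≤
      (D0 + 1) * ((n : ℝ) ^ 2) ^ D0 * Real.exp (-(r * x)) := by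
  set Fs := univ.filter (fun F : Finset (Edg n) => F.card ≤ D0 ∧
    Disjoint F (NB q (gr (A ∪ F)) S) ∧ x < (NB q (gr (A ∪ F)) S).card) with hFs
  have h1 : Pr r (fun B : Finset (Edg n) => x < (NB q (gr (A ∪ B)) S).card) ≤
      Pr r (fun B : Finset (Edg n) => ∃ F ∈ Fs, F ⊆ B ∧ Disjoint (NB q (gr (A ∪ F)) S) B) := by
    refine Pr_mono hr0 hr1 fun B hB => ?_
    obtain ⟨F, hFB, hFc, hF1, hF2⟩ := exists_gen q A B S
    refine ⟨F, ?_, hFB, hF2⟩
    rw [hFs, mem_filter]
    refine ⟨mem_univ _, hFc.trans hD, hF1, lt_of_lt_of_le hB ?_⟩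
    exact_mod_cast card_le_card (NB_anti q (gr_mono (union_subset_union_right hFB)) S)
  refine h1.trans ((Pr_exists_le hr0 hr1 Fs _).trans ?_)
  have h2 : ∀ F ∈ Fs, Pr r (fun B : Finset (Edg n) =>
      F ⊆ B ∧ Disjoint (NB q (gr (A ∪ F)) S) B) ≤ Real.exp (-(r * x)) := by
    intro F hF
    obtain ⟨_, _, hF1, hF2⟩ := mem_filter.1 hF
    rw [Pr_subset_disjoint r F _ hF1]
    have h3 : (1 - r) ^ (NB q (gr (A ∪ F)) S).card ≤ Real.exp (-(r * x)) := by
      have h4 : 1 - r ≤ Real.exp (-r) := by
        have := Real.add_one_le_exp (-r)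
        linarith
      calc (1 - r) ^ (NB q (gr (A ∪ F)) S).card ≤ Real.exp (-r) ^ (NB q (gr (A ∪ F)) S).card :=
            pow_le_pow_left₀ (by linarith) h4 _
        _ = Real.exp (-(r * (NB q (gr (A ∪ F)) S).card)) := by
            rw [← Real.exp_nat_mul]; congr 1; ring
        _ ≤ Real.exp (-(r * x)) := by
            apply Real.exp_le_exp.2
            have := mul_le_mul_of_nonneg_left hF2.le hr0
            linarith
    calc r ^ F.card * (1 - r) ^ (NB q (gr (A ∪ F)) S).card
        ≤ 1 * (1 - r) ^ (NB q (gr (A ∪ F)) S).card :=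
          mul_le_mul_of_nonneg_right (pow_le_one₀ hr0 hr1) (pow_nonneg (by linarith) _)
      _ ≤ Real.exp (-(r * x)) := by rw [one_mul]; exact h3
  refine (sum_le_sum h2).trans ?_
  rw [sum_const, nsmul_eq_mul]
  refine mul_le_mul_of_nonneg_right ?_ (Real.exp_pos _).le
  refine le_trans ?_ (card_small n D0 hn)
  have h5 : Fs ⊆ univ.filter (fun F : Finset (Edg n) => F.card ≤ D0) := by
    intro F hF
    rw [hFs, mem_filter] at hF
    exact mem_filter.2 ⟨mem_univ _, hF.2.1⟩
  exact_mod_cast card_le_card h5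

end Unground

namespace Unground

/-- the numeric limit -/
theorem exists_N (D0 : ℕ) (κ η : ℝ) (hκ : 0 < κ) (hη : 0 < η) :
    ∃ N : ℕ, ∀ n : ℕ, N ≤ n →
      (D0 + 1) * ((n : ℝ) ^ 2) ^ D0 * Real.exp (-(κ * n)) ≤ η := by
  have h1 := (Real.tendsto_pow_mul_exp_neg_atTop_nhds_zero (2 * D0)).comp
    (tendsto_natCast_atTop_atTop (R := ℝ) |>.const_mul_atTop hκ)
  have h2 := h1.const_mul ((D0 + 1) / κ ^ (2 * D0))
  rw [mul_zero] at h2
  obtain ⟨N, hN⟩ := Filter.eventually_atTop.1 (h2.eventually_le_const hη)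
  refine ⟨N, fun n hn => ?_⟩
  have h3 := hN n hn
  simp only [Function.comp] at h3
  refine le_trans (le_of_eq ?_) h3
  have : κ ^ (2 * D0) ≠ 0 := (pow_pos hκ _).ne'
  rw [mul_pow, pow_mul (n : ℝ)]
  field_simp

theorem th_nonneg {p : ℝ} (h0 : 0 ≤ p) (h1 : p ≤ 1) (i : ℕ) : 0 ≤ th p i := by
  unfold th
  have := pow_le_one₀ (n := i) (by linarith : 0 ≤ 1 - p) (by linarith)
  linarith

theorem th_le_one {p : ℝ} (h1 : p ≤ 1) (i : ℕ) : th p i ≤ 1 := by
  unfold th
  have := pow_nonneg (by linarith : 0 ≤ 1 - p) i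
  linarith

theorem th_le {p : ℝ} (h1 : p ≤ 1) (i : ℕ) : th p i ≤ i * p := by
  unfold th
  have := one_add_mul_le_pow (a := -p) (by linarith) i
  have h2 : (1 + -p) = 1 - p := by ring
  rw [h2] at this
  linarith

/-- the deterministic conclusion -/
theorem rigid_of_NB {n d : ℕ} (hd : 1 ≤ d) {q : Mot n d} (hq : Good q) (H : SimpleGraph (Fin n))
    (S : Finset (Fin n)) (β ε : ℝ) (hε : 0 < ε) (hβ : ε < β) (hn : (d : ℝ) < ε * n / 2)
    (hS : β * n ≤ S.card)
    (h : ((NB q H S).card : ℝ) ≤ ε ^ 2 / (32 * d) * (n : ℝ) ^ 2) :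
    ∃ K : Finset (Fin n), Rg q H K ∧ (β - ε) * n ≤ K.card := by
  have hd0 : (0 : ℝ) < d := by exact_mod_cast hd
  have hn0 : (0 : ℝ) < n := by
    by_contra hcon
    have : (n : ℝ) = 0 := le_antisymm (not_lt.1 hcon) (Nat.cast_nonneg _)
    rw [this] at hn
    simp at hn
    linarith
  set s : ℕ := ⌊ε * n / (4 * d)⌋₊ with hs
  have hs1 : (s : ℝ) ≤ ε * n / (4 * d) := Nat.floor_le (by positivity)
  have hs2 : ε * n / (4 * d) < (s : ℝ) + 1 := Nat.lt_floor_add_one _
  have hs3 : (d : ℝ) * s ≤ ε * n / 4 := by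
    calc (d : ℝ) * s ≤ d * (ε * n / (4 * d)) := mul_le_mul_of_nonneg_left hs1 hd0.le
      _ = ε * n / 4 := by field_simp
  set b := (S.filter (fun u => s < (nn q H S u).card)).card with hb
  have hb1 : (b : ℝ) * (s + 1) ≤ 2 * (ε ^ 2 / (32 * d) * (n : ℝ) ^ 2) := by
    have h1 : (b : ℝ) * (s + 1) ≤ 2 * ((NB q H S).card : ℝ) := by
      exact_mod_cast card_bad q H S s
    linarith
  have hb2 : (b : ℝ) ≤ ε * n / 4 := by
    by_contra hcon
    push Not at hcon
    have h1 : ε * n / 4 * (ε * n / (4 * d)) < (b : ℝ) * (s + 1) := by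
      apply mul_lt_mul'' hcon hs2 (by positivity) (by positivity)
    have h2 : ε * n / 4 * (ε * n / (4 * d)) = 2 * (ε ^ 2 / (32 * d) * (n : ℝ) ^ 2) := by
      field_simp
      ring
    linarith
  have hmain : b + d * s + d < S.card := by
    have h1 : (b : ℝ) + d * s + d < S.card := by
      have : ε * n < β * n := mul_lt_mul_of_pos_right hβ hn0
      linarith
    exact_mod_cast h1
  obtain ⟨K, hK, hKc⟩ := exists_rigid hq H S s hmain
  refine ⟨K, hK, ?_⟩
  have h1 : (S.card : ℝ) ≤ K.card + d * s := by exact_mod_cast hKc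
  have h2 : 0 < ε * n := by positivity
  nlinarith

end Unground

/-- from a pinned set with bounded grounding to a rigid set, by sprinkling -/
theorem unground (d : ℕ) (hd : 1 ≤ d) (c1 c2 : ℝ) (h1 : 0 < c1) (h2 : c1 < c2) (I : ℕ)
    (β ε η : ℝ) (hε : 0 < ε) (hη : 0 < η) :
    ∃ N : ℕ, ∀ n : ℕ, N ≤ n → ∀ i : ℕ, i < I → ∀ q : Mot n d, Good q →
      Ex (c1 / n) (fun A : Finset (Edg n) => Ex (th (c1 / n) i) (fun T : Finset (Fin n) =>
        if rho (PhiR q (gr A) T) < β then 1 else 0)) ≤ η →
      Pr (c2 / n) (fun A : Finset (Edg n) => ¬ ∃ K : Finset (Fin n),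
        Rg q (gr A) K ∧ (β - ε) * n ≤ K.card) ≤ 3 * η := by
  rcases le_or_gt β ε with hβ | hβ
  · refine ⟨0, fun n _ i _ q hq _ => ?_⟩
    have h3 : (fun A : Finset (Edg n) => ¬ ∃ K : Finset (Fin n),
        Rg q (gr A) K ∧ (β - ε) * n ≤ K.card) = fun _ => False := by
      funext A
      rw [eq_iff_iff, iff_false, not_not]
      refine ⟨∅, Rg_empty q _, ?_⟩
      rw [card_empty, Nat.cast_zero]
      exact mul_nonpos_of_nonpos_of_nonneg (by linarith) (Nat.cast_nonneg _)
    rw [h3]
    unfold Pr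
    simp only [if_false]
    rw [Ex_const]
    linarith
  · have hd0 : (0 : ℝ) < d := by exact_mod_cast hd
    set t0 : ℕ := ⌈I * c1 / η⌉₊ + 1 with ht0
    have ht1 : I * c1 / η ≤ t0 := by
      rw [ht0]
      push_cast
      have := Nat.le_ceil (I * c1 / η)
      linarith
    have ht2 : (0 : ℝ) < t0 := by rw [ht0]; positivity
    set D0 : ℕ := d * t0 with hD0
    set δ : ℝ := ε ^ 2 / (32 * d) with hδ
    have hδ0 : 0 < δ := by rw [hδ]; positivity
    obtain ⟨N1, hN1⟩ := Unground.exists_N D0 ((c2 - c1) * δ) η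
      (mul_pos (by linarith) hδ0) hη
    refine ⟨max N1 (max (⌈c2⌉₊ + 1) (⌈2 * d / ε⌉₊ + 1)), fun n hn i hi q hq hE => ?_⟩
    have hnN1 : N1 ≤ n := (le_max_left _ _).trans hn
    have hnc : (c2 : ℝ) < n := by
      have h3 : ⌈c2⌉₊ + 1 ≤ n := (le_max_left _ _).trans ((le_max_right _ _).trans hn)
      have h4 : ((⌈c2⌉₊ : ℝ)) + 1 ≤ n := by exact_mod_cast h3
      have := Nat.le_ceil c2
      linarith
    have hnd : (d : ℝ) < ε * n / 2 := by
      have h3 : ⌈2 * d / ε⌉₊ + 1 ≤ n := (le_max_right _ _).trans ((le_max_right _ _).trans hn)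
      have h4 : ((⌈2 * d / ε⌉₊ : ℝ)) + 1 ≤ n := by exact_mod_cast h3
      have h5 := Nat.le_ceil (2 * d / ε)
      have h6 : 2 * d / ε < n := by linarith
      rw [div_lt_iff₀ hε] at h6
      linarith
    have hn0 : (0 : ℝ) < n := by linarith
    have hn1 : 1 ≤ n := by exact_mod_cast hn0
    have hp1 : 0 < c1 / n := div_pos h1 hn0
    have hp12 : c1 / n < c2 / n := div_lt_div_of_pos_right h2 hn0
    have hp2 : c2 / n < 1 := (div_lt_one hn0).2 hnc
    set p1 := c1 / (n : ℝ) with hp1d
    set p2 := c2 / (n : ℝ) with hp2d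
    set r := (p2 - p1) / (1 - p1) with hr
    have h1p : 0 < 1 - p1 := by linarith
    have hr0 : 0 ≤ r := div_nonneg (by linarith) h1p.le
    have hr1 : r ≤ 1 := (div_le_one h1p).2 (by linarith)
    have hrl : (c2 - c1) / n ≤ r := by
      rw [hr, sub_div, ← hp1d, ← hp2d]
      rw [le_div_iff₀ h1p]
      nlinarith
    have hpu : p1 + r - p1 * r = p2 := by
      have : r * (1 - p1) = p2 - p1 := by rw [hr]; field_simp
      linarith
    have hth0 := Unground.th_nonneg hp1.le (by linarith : p1 ≤ 1) i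
    have hth1 := Unground.th_le_one (by linarith : p1 ≤ 1) i
    obtain ⟨Bad, hBad⟩ : ∃ Bad : Finset (Edg n) → Prop, Bad = fun A => ¬ ∃ K : Finset (Fin n),
        Rg q (gr A) K ∧ (β - ε) * n ≤ K.card := ⟨_, rfl⟩
    rw [← hBad]
    -- the main estimate for a fixed first round
    have key : ∀ (A : Finset (Edg n)) (T : Finset (Fin n)),
        Ex r (fun B : Finset (Edg n) => if Bad (A ∪ B) then (1 : ℝ) else 0) ≤
        (if rho (PhiR q (gr A) T) < β then 1 else 0) +
          (if (t0 : ℝ) ≤ (T.card : ℝ) then 1 else 0) + η := by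
      intro A T
      have hle1 : Pr r (fun B : Finset (Edg n) => Bad (A ∪ B)) ≤ 1 := Pr_le_one hr0 hr1 _
      by_cases hT1 : rho (PhiR q (gr A) T) < β
      · rw [if_pos hT1]
        have : (0 : ℝ) ≤ if (t0 : ℝ) ≤ (T.card : ℝ) then 1 else 0 := by split_ifs <;> norm_num
        have h3 := hle1
        unfold Pr at h3
        linarith
      by_cases hT2 : (t0 : ℝ) ≤ (T.card : ℝ)
      · rw [if_pos hT2, if_neg hT1]
        have h3 := hle1
        unfold Pr at h3
        linarith
      rw [if_neg hT1, if_neg hT2, zero_add, zero_add]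
      push Not at hT1 hT2
      set S := PhiR q (gr A) T with hS
      have hScard : β * n ≤ S.card := by
        unfold rho at hT1
        rwa [le_div_iff₀ hn0] at hT1
      have hrd : rd q (gr A) S ≤ D0 := by
        refine (Unground.rd_le_of_pin (T := T) ?_).trans ?_
        · intro m hm w hw
          rw [hS, PhiR, mem_filter, kk_eq_zero] at hw
          exact hw.2 m hm
        · rw [hD0]
          exact Nat.mul_le_mul_left _ (by exact_mod_cast hT2.le)
      have h3 := Unground.prob_NB q hn1 A S D0 hrd r (δ * (n : ℝ) ^ 2) hr0 hr1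
      have h4 : Pr r (fun B : Finset (Edg n) => Bad (A ∪ B)) ≤
          Pr r (fun B : Finset (Edg n) =>
            δ * (n : ℝ) ^ 2 < (Unground.NB q (gr (A ∪ B)) S).card) := by
        refine Pr_mono hr0 hr1 fun B hB => ?_
        by_contra hcon
        push Not at hcon
        rw [hBad] at hB
        exact hB (Unground.rigid_of_NB hd hq _ S β ε hε hβ hnd hScard hcon)
      have h5 : (D0 + 1) * ((n : ℝ) ^ 2) ^ D0 * Real.exp (-(r * (δ * (n : ℝ) ^ 2))) ≤ η := by
        refine le_trans ?_ (hN1 n hnN1)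
        refine mul_le_mul_of_nonneg_left ?_ (by positivity)
        apply Real.exp_le_exp.2
        have h6 : (c2 - c1) / n * (δ * (n : ℝ) ^ 2) ≤ r * (δ * (n : ℝ) ^ 2) :=
          mul_le_mul_of_nonneg_right hrl (by positivity)
        have h7 : (c2 - c1) / n * (δ * (n : ℝ) ^ 2) = (c2 - c1) * δ * n := by
          field_simp
        linarith
      exact h4.trans (h3.trans h5)
    -- expectation of the grounding
    have hT : Ex (th p1 i) (fun T : Finset (Fin n) =>
        if (t0 : ℝ) ≤ (T.card : ℝ) then (1 : ℝ) else 0) ≤ η := by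
      have h3 := Pr_markov hth0 hth1 (f := fun T : Finset (Fin n) => (T.card : ℝ))
        (fun T => Nat.cast_nonneg _) ht2
      have h4 : Ex (th p1 i) (fun T : Finset (Fin n) => (T.card : ℝ)) = th p1 i * n := by
        have := Ex_card_inter (th p1 i) (univ : Finset (Fin n))
        simpa using this
      rw [h4] at h3
      refine le_trans h3 ?_
      rw [div_le_iff₀ ht2]
      have h5 : th p1 i * n ≤ I * c1 := by
        have h6 := Unground.th_le (by linarith : p1 ≤ 1) i
        have h7 : (i : ℝ) ≤ I := by exact_mod_cast hi.le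
        calc th p1 i * n ≤ i * p1 * n := mul_le_mul_of_nonneg_right h6 hn0.le
          _ = i * c1 := by rw [hp1d]; field_simp
          _ ≤ I * c1 := mul_le_mul_of_nonneg_right h7 h1.le
      rw [div_le_iff₀ hη] at ht1
      linarith
    -- assembly
    have hfin : Pr p2 Bad = Ex p1 (fun A : Finset (Edg n) => Ex r (fun B : Finset (Edg n) =>
          if Bad (A ∪ B) then (1 : ℝ) else 0)) := by
      unfold Pr
      rw [← hpu]
      convert (Ex_union p1 r (fun A : Finset (Edg n) => if Bad A then (1 : ℝ) else 0)).symm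
    rw [hfin]
    have hstep : ∀ A : Finset (Edg n), Ex r (fun B : Finset (Edg n) =>
          if Bad (A ∪ B) then (1 : ℝ) else 0) ≤
        Ex (th p1 i) (fun T : Finset (Fin n) =>
          if rho (PhiR q (gr A) T) < β then 1 else 0) + 2 * η := by
      intro A
      have h3 := Ex_mono hth0 hth1 (key A)
      rw [Ex_const] at h3
      have h4 : Ex (th p1 i) (fun T : Finset (Fin n) =>
          ((if rho (PhiR q (gr A) T) < β then (1 : ℝ) else 0) +
          (if (t0 : ℝ) ≤ (T.card : ℝ) then 1 else 0) + η)) =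
          Ex (th p1 i) (fun T : Finset (Fin n) =>
            if rho (PhiR q (gr A) T) < β then (1 : ℝ) else 0) +
          Ex (th p1 i) (fun T : Finset (Fin n) =>
            if (t0 : ℝ) ≤ (T.card : ℝ) then (1 : ℝ) else 0) + η := by
        rw [Ex_add (th p1 i) (fun T : Finset (Fin n) =>
          ((if rho (PhiR q (gr A) T) < β then (1 : ℝ) else 0) +
          (if (t0 : ℝ) ≤ (T.card : ℝ) then 1 else 0))) (fun _ => η), Ex_const, Ex_add]
      rw [h4] at h3
      linarith
    have h3 := Ex_mono hp1.le (by linarith : p1 ≤ 1) hstep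
    rw [Ex_add p1 (fun A : Finset (Edg n) => Ex (th p1 i) (fun T : Finset (Fin n) =>
          if rho (PhiR q (gr A) T) < β then 1 else 0)) (fun _ => 2 * η), Ex_const] at h3
    linarith

end Pool.Agent.GR
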