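import Pool.Agent.Lib_MP_264ef2_co.Prob

set_option autoImplicit false

namespace Pool.Agent.GR

open Finset
open scoped Classical

namespace Poisson

section
variable {α : Type*} [Fintype α]

/-- law of the trace on `X` -/
theorem Pr_trace (p : ℝ) (X Y : Finset α) (h : Y ⊆ X) :
    Pr p (fun A : Finset α => A ∩ X = Y) = p ^ Y.card * (1 - p) ^ (X.card - Y.card) := by
  have h1 := Pr_subset_disjoint p Y (X \ Y) disjoint_sdiff
  rw [card_sdiff_of_subset h] at h1
  rw [← h1]
  congr 1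
  ext A
  constructor
  · intro e
    refine ⟨fun a ha => ?_, ?_⟩
    · rw [← e] at ha
      exact (mem_inter.1 ha).1
    · rw [disjoint_left]
      intro a ha hA
      have := mem_sdiff.1 ha
      exact this.2 (e ▸ mem_inter.2 ⟨hA, this.1⟩)
  · rintro ⟨h2, h3⟩
    ext a
    rw [mem_inter]
    constructor
    · rintro ⟨ha, hX⟩
      by_contra hY
      exact disjoint_left.1 h3 (mem_sdiff.2 ⟨hX, hY⟩) ha
    · intro hY
      exact ⟨h2 hY, h hY⟩

/-- the binomial law -/
theorem Pr_card (p : ℝ) (X : Finset α) (j : ℕ) :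
    Pr p (fun A : Finset α => (A ∩ X).card = j) =
      (X.card.choose j : ℝ) * (p ^ j * (1 - p) ^ (X.card - j)) := by
  have h1 : ∀ A : Finset α, (if (A ∩ X).card = j then (1:ℝ) else 0) =
      ∑ Y ∈ X.powersetCard j, if A ∩ X = Y then (1:ℝ) else 0 := by
    intro A
    rw [sum_ite_eq]
    congr 1
    rw [mem_powersetCard]
    simp [inter_subset_right]
  rw [Pr_eq_Ex]
  simp only [h1]
  rw [Ex_sum]
  have h2 : ∀ Y ∈ X.powersetCard j, Ex p (fun A : Finset α => if A ∩ X = Y then (1:ℝ) else 0) =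
      p ^ j * (1 - p) ^ (X.card - j) := by
    intro Y hY
    rw [mem_powersetCard] at hY
    have := Pr_trace p X Y hY.1
    rw [Pr_eq_Ex] at this
    rw [this, hY.2]
  rw [sum_congr rfl h2, sum_const, card_powersetCard, nsmul_eq_mul]

/-- the upper tail of the binomial law -/
theorem Pr_tail (p : ℝ) (X : Finset α) (d : ℕ) :
    Pr p (fun A : Finset α => d ≤ (A ∩ X).card) =
      1 - ∑ j ∈ range d, (X.card.choose j : ℝ) * (p ^ j * (1 - p) ^ (X.card - j)) := by
  have h0 : (fun A : Finset α => d ≤ (A ∩ X).card) = fun A => ¬ ((A ∩ X).card < d) := by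
    ext A; simp
  rw [h0, Pr_not]
  congr 1
  have h1 : ∀ A : Finset α, (if (A ∩ X).card < d then (1:ℝ) else 0) =
      ∑ j ∈ range d, if (A ∩ X).card = j then (1:ℝ) else 0 := by
    intro A
    rw [sum_ite_eq]
    congr 1
    simp
  rw [Pr_eq_Ex]
  simp only [h1]
  rw [Ex_sum]
  refine sum_congr rfl (fun j _ => ?_)
  rw [← Pr_card, Pr_eq_Ex]

end

/-- `(1-p)^m` against `exp (-p m)` -/
theorem pow_exp {p : ℝ} (h0 : 0 ≤ p) (h1 : p ≤ 1) (m : ℕ) :
    |(1 - p) ^ m - Real.exp (-(p * m))| ≤ m * p ^ 2 := by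
  induction m with
  | zero => simp
  | succ m ih =>
    have hb : |Real.exp (-p) - 1 - (-p)| ≤ (-p) ^ 2 :=
      Real.abs_exp_sub_one_sub_id_le (by rw [abs_neg, abs_of_nonneg h0]; exact h1)
    have he : Real.exp (-(p * ((m + 1 : ℕ) : ℝ))) = Real.exp (-(p * m)) * Real.exp (-p) := by
      rw [← Real.exp_add]; congr 1; push_cast; ring
    have e1 : (1 - p) ^ (m + 1) - Real.exp (-(p * ((m + 1 : ℕ) : ℝ))) =
        ((1 - p) ^ m - Real.exp (-(p * m))) * (1 - p) -
          Real.exp (-(p * m)) * (Real.exp (-p) - 1 - (-p)) := by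
      rw [he]; ring
    have hE : Real.exp (-(p * m)) ≤ 1 := by
      rw [Real.exp_le_one_iff]
      have : 0 ≤ p * m := mul_nonneg h0 (Nat.cast_nonneg _)
      linarith
    have hE0 : 0 ≤ Real.exp (-(p * m)) := (Real.exp_pos _).le
    have t1 : |((1 - p) ^ m - Real.exp (-(p * m))) * (1 - p)| ≤ m * p ^ 2 := by
      rw [abs_mul, abs_of_nonneg (by linarith : 0 ≤ 1 - p)]
      calc _ ≤ |(1 - p) ^ m - Real.exp (-(p * m))| * 1 :=
            mul_le_mul_of_nonneg_left (by linarith) (abs_nonneg _)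
        _ ≤ _ := by rw [mul_one]; exact ih
    have t2 : |Real.exp (-(p * m)) * (Real.exp (-p) - 1 - (-p))| ≤ p ^ 2 := by
      rw [abs_mul, abs_of_nonneg hE0]
      calc _ ≤ 1 * |Real.exp (-p) - 1 - (-p)| :=
            mul_le_mul_of_nonneg_right hE (abs_nonneg _)
        _ ≤ _ := by rw [one_mul]; simpa using hb
    rw [e1]
    refine (abs_sub _ _).trans ?_
    push_cast
    linarith

/-- `a^j - b^j` -/
theorem pow_sub_le {a b : ℝ} (hb : 0 ≤ b) (hab : b ≤ a) (j : ℕ) :
    a ^ (j + 1) - b ^ (j + 1) ≤ (j + 1) * a ^ j * (a - b) := by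
  induction j with
  | zero => simp
  | succ j ih =>
    have ha : 0 ≤ a := hb.trans hab
    have e : a ^ (j + 1 + 1) - b ^ (j + 1 + 1) = a * (a ^ (j + 1) - b ^ (j + 1)) + b ^ (j + 1) * (a - b) := by
      ring
    rw [e]
    have h1 : a * (a ^ (j + 1) - b ^ (j + 1)) ≤ a * ((j + 1) * a ^ j * (a - b)) :=
      mul_le_mul_of_nonneg_left ih ha
    have h2 : b ^ (j + 1) * (a - b) ≤ a ^ (j + 1) * (a - b) :=
      mul_le_mul_of_nonneg_right (pow_le_pow_left₀ hb hab _) (by linarith)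
    push_cast
    have e2 : a * ((j + 1) * a ^ j * (a - b)) = (j + 1) * a ^ (j + 1) * (a - b) := by ring
    rw [e2] at h1
    have e3 : ((j : ℝ) + 1 + 1) * a ^ (j + 1) * (a - b) =
      (j + 1) * a ^ (j + 1) * (a - b) + a ^ (j + 1) * (a - b) := by ring
    rw [e3]
    linarith

/-- binomial coefficient against power -/
theorem choose_bound {p c : ℝ} (h0 : 0 ≤ p) (s : ℕ) (hs : p * s ≤ c) (j : ℕ) :
    |(s.choose j : ℝ) * p ^ j - (p * s) ^ j / (j.factorial : ℝ)| ≤ j ^ 2 * c ^ (j - 1) * p := by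
  have hps : 0 ≤ p * s := mul_nonneg h0 (Nat.cast_nonneg _)
  have hc : 0 ≤ c := hps.trans hs
  rcases j with _ | j
  · simp
  have hf : (0:ℝ) < ((j + 1).factorial : ℝ) := by exact_mod_cast Nat.factorial_pos _
  have hf1 : (1:ℝ) ≤ ((j + 1).factorial : ℝ) := by exact_mod_cast Nat.factorial_pos _
  have hd : (s.choose (j + 1) : ℝ) = (s.descFactorial (j + 1) : ℝ) / ((j + 1).factorial : ℝ) := by
    rw [Nat.descFactorial_eq_factorial_mul_choose]
    push_cast
    field_simp
  have hup : (s.descFactorial (j + 1) : ℝ) ≤ (s : ℝ) ^ (j + 1) := by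
    exact_mod_cast Nat.descFactorial_le_pow s (j + 1)
  have hlo : (((s + 1 - (j + 1) : ℕ) : ℝ)) ^ (j + 1) ≤ (s.descFactorial (j + 1) : ℝ) := by
    exact_mod_cast Nat.pow_sub_le_descFactorial s (j + 1)
  set b : ℝ := ((s + 1 - (j + 1) : ℕ) : ℝ) with hbdef
  have hb0 : 0 ≤ b := Nat.cast_nonneg _
  have hbs : b ≤ s := by
    rw [hbdef]; exact_mod_cast (by omega : s + 1 - (j + 1) ≤ s)
  have hbj : (s : ℝ) - b ≤ j + 1 := by
    rw [hbdef]
    have : s ≤ (s + 1 - (j + 1)) + (j + 1) := by omega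
    have : (s : ℝ) ≤ ((s + 1 - (j + 1) : ℕ) : ℝ) + (j + 1) := by exact_mod_cast this
    linarith
  have key : (p * s) ^ (j + 1) - (p * b) ^ (j + 1) ≤ (j + 1) ^ 2 * c ^ j * p := by
    have h1 := pow_sub_le (a := p * s) (b := p * b) (mul_nonneg h0 hb0)
      (mul_le_mul_of_nonneg_left hbs h0) j
    refine h1.trans ?_
    have h2 : (p * s) ^ j ≤ c ^ j := pow_le_pow_left₀ hps hs _
    have h3 : p * s - p * b ≤ p * (j + 1) := by
      rw [← mul_sub]; exact mul_le_mul_of_nonneg_left hbj h0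
    have h4 : 0 ≤ p * s - p * b := by
      rw [← mul_sub]; exact mul_nonneg h0 (by linarith)
    calc (j + 1) * (p * s) ^ j * (p * s - p * b) ≤ (j + 1) * c ^ j * (p * (j + 1)) := by
          apply mul_le_mul _ h3 h4 (by positivity)
          exact mul_le_mul_of_nonneg_left h2 (by positivity)
      _ = (j + 1) ^ 2 * c ^ j * p := by ring
  have e1 : (s.choose (j + 1) : ℝ) * p ^ (j + 1) - (p * s) ^ (j + 1) / ((j + 1).factorial : ℝ) =
      - ((p * s) ^ (j + 1) - p ^ (j + 1) * (s.descFactorial (j + 1) : ℝ)) / ((j + 1).factorial : ℝ) := by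
    rw [hd]; field_simp; ring
  have hpj : 0 ≤ p ^ (j + 1) := pow_nonneg h0 _
  have h5 : 0 ≤ (p * s) ^ (j + 1) - p ^ (j + 1) * (s.descFactorial (j + 1) : ℝ) := by
    rw [mul_pow, ← mul_sub]; exact mul_nonneg hpj (by linarith)
  have h6 : (p * s) ^ (j + 1) - p ^ (j + 1) * (s.descFactorial (j + 1) : ℝ) ≤
      (j + 1) ^ 2 * c ^ j * p := by
    refine le_trans ?_ key
    rw [mul_pow p b]
    have := mul_le_mul_of_nonneg_left hlo hpj
    linarith
  rw [e1, abs_div, abs_neg, abs_of_nonneg h5, abs_of_pos hf, div_le_iff₀ hf]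
  push_cast
  refine h6.trans ?_
  have : 0 ≤ ((j:ℝ) + 1) ^ 2 * c ^ j * p := by positivity
  nlinarith

/-- one term -/
theorem term_bound {p c : ℝ} (h0 : 0 ≤ p) (h1 : p ≤ 1) (s : ℕ) (hs : p * s ≤ c) (j : ℕ) :
    |(s.choose j : ℝ) * (p ^ j * (1 - p) ^ (s - j)) -
      Real.exp (-(p * s)) * ((p * s) ^ j / (j.factorial : ℝ))| ≤
      (c ^ j * (c + j) + j ^ 2 * c ^ (j - 1)) * p := by
  have hps : 0 ≤ p * s := mul_nonneg h0 (Nat.cast_nonneg _)
  have hc : 0 ≤ c := hps.trans hs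
  have e : (s.choose j : ℝ) * (p ^ j * (1 - p) ^ (s - j)) -
      Real.exp (-(p * s)) * ((p * s) ^ j / (j.factorial : ℝ)) =
      ((s.choose j : ℝ) * p ^ j) * ((1 - p) ^ (s - j) - Real.exp (-(p * s))) +
      Real.exp (-(p * s)) * ((s.choose j : ℝ) * p ^ j - (p * s) ^ j / (j.factorial : ℝ)) := by
    ring
  have hE : Real.exp (-(p * s)) ≤ 1 := by
    rw [Real.exp_le_one_iff]; linarith
  have hE0 : 0 ≤ Real.exp (-(p * s)) := (Real.exp_pos _).le
  have t2 : |Real.exp (-(p * s)) * ((s.choose j : ℝ) * p ^ j - (p * s) ^ j / (j.factorial : ℝ))| ≤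
      j ^ 2 * c ^ (j - 1) * p := by
    rw [abs_mul, abs_of_nonneg hE0]
    calc _ ≤ 1 * |(s.choose j : ℝ) * p ^ j - (p * s) ^ j / (j.factorial : ℝ)| :=
          mul_le_mul_of_nonneg_right hE (abs_nonneg _)
      _ ≤ _ := by rw [one_mul]; exact choose_bound h0 s hs j
  have t1 : |((s.choose j : ℝ) * p ^ j) * ((1 - p) ^ (s - j) - Real.exp (-(p * s)))| ≤
      c ^ j * (c + j) * p := by
    have hcj : (0:ℝ) ≤ (s.choose j : ℝ) * p ^ j := by positivity
    have hcj2 : (s.choose j : ℝ) * p ^ j ≤ c ^ j := by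
      have : (s.choose j : ℝ) ≤ (s : ℝ) ^ j := by exact_mod_cast Nat.choose_le_pow s j
      calc (s.choose j : ℝ) * p ^ j ≤ (s : ℝ) ^ j * p ^ j :=
            mul_le_mul_of_nonneg_right this (pow_nonneg h0 _)
        _ = (p * s) ^ j := by rw [mul_pow]; ring
        _ ≤ c ^ j := pow_le_pow_left₀ hps hs _
    rcases lt_or_ge s j with hsj | hsj
    · rw [Nat.choose_eq_zero_of_lt hsj]
      simp only [Nat.cast_zero, zero_mul, abs_zero]
      positivity
    · have h2 := pow_exp h0 h1 (s - j)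
      have hsub : ((s - j : ℕ) : ℝ) = (s : ℝ) - j := by
        rw [Nat.cast_sub hsj]
      have h3 : |Real.exp (-(p * ((s - j : ℕ) : ℝ))) - Real.exp (-(p * s))| ≤ p * j := by
        have e3 : Real.exp (-(p * s)) = Real.exp (-(p * ((s - j : ℕ) : ℝ))) * Real.exp (-(p * j)) := by
          rw [← Real.exp_add, hsub]; congr 1; ring
        rw [e3]
        have e4 : Real.exp (-(p * ((s - j : ℕ) : ℝ))) - Real.exp (-(p * ((s - j : ℕ) : ℝ))) * Real.exp (-(p * j)) =
          Real.exp (-(p * ((s - j : ℕ) : ℝ))) * (1 - Real.exp (-(p * j))) := by ring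
        have hpj : 0 ≤ p * j := mul_nonneg h0 (Nat.cast_nonneg _)
        have h5 : Real.exp (-(p * j)) ≤ 1 := by rw [Real.exp_le_one_iff]; linarith
        have h6 : 1 - Real.exp (-(p * j)) ≤ p * j := by
          have := Real.add_one_le_exp (-(p * j)); linarith
        have h7 : Real.exp (-(p * ((s - j : ℕ) : ℝ))) ≤ 1 := by
          rw [Real.exp_le_one_iff]
          have : 0 ≤ p * ((s - j : ℕ) : ℝ) := mul_nonneg h0 (Nat.cast_nonneg _)
          linarith
        rw [e4, abs_mul, abs_of_pos (Real.exp_pos _), abs_of_nonneg (by linarith)]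
        calc _ ≤ 1 * (1 - Real.exp (-(p * j))) :=
              mul_le_mul_of_nonneg_right h7 (by linarith)
          _ ≤ _ := by rw [one_mul]; exact h6
      have h8 : |(1 - p) ^ (s - j) - Real.exp (-(p * s))| ≤ (c + j) * p := by
        have h9 : ((s - j : ℕ) : ℝ) * p ^ 2 ≤ c * p := by
          have : ((s - j : ℕ) : ℝ) ≤ s := by exact_mod_cast Nat.sub_le s j
          calc ((s - j : ℕ) : ℝ) * p ^ 2 ≤ s * p ^ 2 := mul_le_mul_of_nonneg_right this (by positivity)
            _ = (p * s) * p := by ring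
            _ ≤ c * p := mul_le_mul_of_nonneg_right hs h0
        calc |(1 - p) ^ (s - j) - Real.exp (-(p * s))| ≤
            |(1 - p) ^ (s - j) - Real.exp (-(p * ((s - j : ℕ) : ℝ)))| +
            |Real.exp (-(p * ((s - j : ℕ) : ℝ))) - Real.exp (-(p * s))| := abs_sub_le _ _ _
          _ ≤ c * p + p * j := add_le_add (h2.trans h9) h3
          _ = (c + j) * p := by ring
      rw [abs_mul, abs_of_nonneg hcj]
      calc _ ≤ c ^ j * ((c + j) * p) := mul_le_mul hcj2 h8 (abs_nonneg _) (by positivity)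
        _ = _ := by ring
  rw [e]
  refine (abs_add_le _ _).trans ?_
  have : (c ^ j * (c + j) + j ^ 2 * c ^ (j - 1)) * p = c ^ j * (c + j) * p + j ^ 2 * c ^ (j - 1) * p := by
    ring
  rw [this]
  exact add_le_add t1 t2

end Poisson

open Poisson

/-- Poisson approximation of the binomial law, uniform in `X` -/
theorem poisson (d : ℕ) (c : ℝ) (hc : 0 < c) (ε : ℝ) (hε : 0 < ε) :
    ∃ N : ℕ, ∀ n : ℕ, N ≤ n → ∀ X : Finset (Fin n),
      |Pr (c / n) (fun A : Finset (Fin n) => d ≤ (A ∩ X).card) - Fp d (c * rho X)| ≤ ε := by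
  set K : ℝ := ∑ j ∈ range d, (c ^ j * (c + j) + j ^ 2 * c ^ (j - 1)) with hK
  have hK0 : 0 ≤ K := sum_nonneg (fun j _ => by positivity)
  obtain ⟨N, hN⟩ := exists_nat_ge (c + K * c / ε + 1)
  refine ⟨N, fun n hn X => ?_⟩
  have hnN : (N : ℝ) ≤ n := by exact_mod_cast hn
  have hKe : 0 ≤ K * c / ε := by positivity
  have hn1 : c + K * c / ε + 1 ≤ n := hN.trans hnN
  have hn0 : (0:ℝ) < n := by linarith
  have hp0 : 0 ≤ c / n := by positivity
  have hp1 : c / n ≤ 1 := by rw [div_le_one hn0]; linarith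
  have hy : c * rho X = c / n * X.card := by unfold rho; ring
  have hs : c / n * X.card ≤ c := by
    have : (X.card : ℝ) ≤ n := by
      have := card_le_univ X
      rw [Fintype.card_fin] at this
      exact_mod_cast this
    calc c / n * X.card ≤ c / n * n := mul_le_mul_of_nonneg_left this hp0
      _ = c := by field_simp
  have ht : Pr (c / n) (fun A : Finset (Fin n) => d ≤ (A ∩ X).card) =
      1 - ∑ j ∈ range d, (X.card.choose j : ℝ) * ((c / n) ^ j * (1 - c / n) ^ (X.card - j)) := by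
    convert Pr_tail (c / n) X d
  rw [ht, hy]
  unfold Fp
  have e : 1 - ∑ j ∈ range d, (X.card.choose j : ℝ) * ((c / n) ^ j * (1 - c / n) ^ (X.card - j)) -
      (1 - Real.exp (-(c / n * X.card)) * ∑ j ∈ range d, (c / n * X.card) ^ j / (j.factorial : ℝ)) =
      - ∑ j ∈ range d, ((X.card.choose j : ℝ) * ((c / n) ^ j * (1 - c / n) ^ (X.card - j)) -
        Real.exp (-(c / n * X.card)) * ((c / n * X.card) ^ j / (j.factorial : ℝ))) := by
    rw [sum_sub_distrib, mul_sum]; ring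
  rw [e, abs_neg]
  refine (abs_sum_le_sum_abs _ _).trans ?_
  refine (sum_le_sum (fun j _ => term_bound hp0 hp1 X.card hs j)).trans ?_
  rw [← sum_mul, ← hK]
  rw [← mul_div_assoc, div_le_iff₀ hn0]
  have : K * c / ε ≤ n := by linarith
  rw [div_le_iff₀ hε] at this
  linarith

end Pool.Agent.GR
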