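import Pool.Agent.Lib_MP_264ef2_co.Defs

set_option autoImplicit false

/-! Base facts about random subsets. -/

namespace Pool.Agent.GR

open Finset
open scoped Classical

section
variable {α β γ : Type*} [Fintype α] [Fintype β] [Fintype γ]

namespace Prob

/-- weight of a bit -/
noncomputable def W (p : ℝ) (b : Bool) : ℝ := if b then p else 1 - p

theorem W_sum (p : ℝ) : ∑ b : Bool, W p b = 1 := by simp [W]

/-- the set of a bit vector -/
noncomputable def toF (x : α → Bool) : Finset α := univ.filter (fun a => x a = true)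

theorem mem_toF (x : α → Bool) (a : α) : a ∈ toF x ↔ x a = true := by simp [toF]

noncomputable def eqv (α : Type*) [Fintype α] : Finset α ≃ (α → Bool) where
  toFun A a := decide (a ∈ A)
  invFun x := toF x
  left_inv A := by ext a; simp [mem_toF]
  right_inv x := by ext a; simp [mem_toF]

theorem wt_eq (p : ℝ) (A : Finset α) :
    p ^ A.card * (1 - p) ^ (Fintype.card α - A.card) = ∏ a, W p (decide (a ∈ A)) := by
  have : ∀ a, W p (decide (a ∈ A)) = if a ∈ A then p else 1 - p := by intro a; simp [W]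
  simp only [this]
  rw [Finset.prod_ite, prod_const, prod_const]
  congr 2
  · rw [filter_mem_eq_inter, univ_inter]
  · rw [← card_compl]
    congr 1
    ext a; simp

theorem Ex_eq [DecidableEq α] (p : ℝ) (f : Finset α → ℝ) :
    Ex p f = ∑ x : α → Bool, (∏ a, W p (x a)) * f (toF x) := by
  unfold Ex
  refine Fintype.sum_equiv (eqv α) _ _ (fun A => ?_)
  rw [wt_eq]
  congr 2
  ext a; simp [mem_toF, eqv]

theorem push [DecidableEq α] (w : α → β → ℝ) (φ : α → β → γ) (F : (α → γ) → ℝ) :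
    ∑ x : α → β, (∏ a, w a (x a)) * F (fun a => φ a (x a)) =
      ∑ y : α → γ, (∏ a, ∑ b, if φ a b = y a then w a b else 0) * F y := by
  have h1 : ∀ y : α → γ, (∏ a, ∑ b, if φ a b = y a then w a b else 0) =
      ∑ x : α → β, if (fun a => φ a (x a)) = y then ∏ a, w a (x a) else 0 := by
    intro y
    rw [Finset.prod_univ_sum, Fintype.piFinset_univ]
    refine sum_congr rfl (fun x _ => ?_)
    rw [Finset.prod_ite_zero]
    congr 1
    simp [funext_iff]
  simp only [h1, sum_mul]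
  rw [sum_comm]
  refine sum_congr rfl (fun x _ => ?_)
  simp [ite_mul]

end Prob

open Prob

theorem Ex_const (p c : ℝ) : Ex (α := α) p (fun _ => c) = c := by
  rw [Ex_eq, ← sum_mul]
  have := Finset.prod_univ_sum (fun _ : α => (univ : Finset Bool)) (fun _ b => W p b)
  rw [Fintype.piFinset_univ] at this
  rw [← this]
  simp only [W_sum, prod_const_one, one_mul]

theorem Ex_add (p : ℝ) (f g : Finset α → ℝ) :
    Ex p (fun A => f A + g A) = Ex p f + Ex p g := by
  simp [Ex, mul_add, sum_add_distrib]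
theorem Ex_sub (p : ℝ) (f g : Finset α → ℝ) :
    Ex p (fun A => f A - g A) = Ex p f - Ex p g := by
  simp [Ex, mul_sub, sum_sub_distrib]
theorem Ex_mul_left (p c : ℝ) (f : Finset α → ℝ) :
    Ex p (fun A => c * f A) = c * Ex p f := by
  simp only [Ex, mul_sum]
  exact sum_congr rfl (fun A _ => by ring)
theorem Ex_sum {ι : Type*} (p : ℝ) (s : Finset ι) (f : ι → Finset α → ℝ) :
    Ex p (fun A => ∑ i ∈ s, f i A) = ∑ i ∈ s, Ex p (f i) := by
  simp only [Ex, mul_sum]
  exact sum_comm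

theorem Prob.wt_nonneg {p : ℝ} (h0 : 0 ≤ p) (h1 : p ≤ 1) (a b : ℕ) :
    0 ≤ p ^ a * (1 - p) ^ b := mul_nonneg (pow_nonneg h0 _) (pow_nonneg (by linarith) _)

theorem Ex_mono {p : ℝ} (h0 : 0 ≤ p) (h1 : p ≤ 1) {f g : Finset α → ℝ} (h : ∀ A, f A ≤ g A) :
    Ex p f ≤ Ex p g :=
  sum_le_sum (fun A _ => mul_le_mul_of_nonneg_left (h A) (wt_nonneg h0 h1 _ _))
theorem Ex_nonneg {p : ℝ} (h0 : 0 ≤ p) (h1 : p ≤ 1) {f : Finset α → ℝ} (h : ∀ A, 0 ≤ f A) :
    0 ≤ Ex p f :=
  sum_nonneg (fun A _ => mul_nonneg (wt_nonneg h0 h1 _ _) (h A))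
theorem abs_Ex_le {p : ℝ} (h0 : 0 ≤ p) (h1 : p ≤ 1) (f : Finset α → ℝ) :
    |Ex p f| ≤ Ex p (fun A => |f A|) := by
  refine (abs_sum_le_sum_abs _ _).trans (sum_le_sum (fun A _ => ?_))
  rw [abs_mul, abs_of_nonneg (wt_nonneg h0 h1 _ _)]
/-- Cauchy-Schwarz -/
theorem Ex_sq_le {p : ℝ} (h0 : 0 ≤ p) (h1 : p ≤ 1) (f : Finset α → ℝ) :
    (Ex p f) ^ 2 ≤ Ex p (fun A => f A ^ 2) := by
  set μ := Ex p f
  have h : 0 ≤ Ex p (fun A => (f A - μ) ^ 2) := Ex_nonneg h0 h1 (fun A => sq_nonneg _)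
  have h2 : Ex p (fun A => (f A - μ) ^ 2) =
      Ex p (fun A => f A ^ 2) - 2 * μ * Ex p f + μ ^ 2 := by
    have : (fun A => (f A - μ) ^ 2) = fun A => (f A ^ 2 - (2 * μ) * f A) + μ ^ 2 := by
      ext A; ring
    rw [this, Ex_add, Ex_sub, Ex_mul_left, Ex_const]
  nlinarith [h, h2]
theorem Ex_comm (p q : ℝ) (f : Finset α → Finset β → ℝ) :
    Ex p (fun A => Ex q (fun B => f A B)) = Ex q (fun B => Ex p (fun A => f A B)) := by
  simp only [Ex, mul_sum]
  rw [sum_comm]
  exact sum_congr rfl (fun B _ => sum_congr rfl (fun A _ => by ring))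

theorem Pr_nonneg {p : ℝ} (h0 : 0 ≤ p) (h1 : p ≤ 1) (Q : Finset α → Prop) :
    0 ≤ Pr p Q := Ex_nonneg h0 h1 (fun A => by split_ifs <;> norm_num)
theorem Pr_le_one {p : ℝ} (h0 : 0 ≤ p) (h1 : p ≤ 1) (Q : Finset α → Prop) :
    Pr p Q ≤ 1 := by
  refine (Ex_mono h0 h1 (g := fun _ => 1) (fun A => by split_ifs <;> norm_num)).trans ?_
  rw [Ex_const]
theorem Pr_mono {p : ℝ} (h0 : 0 ≤ p) (h1 : p ≤ 1) {Q R : Finset α → Prop} (h : ∀ A, Q A → R A) :
    Pr p Q ≤ Pr p R := by
  refine Ex_mono h0 h1 (fun A => ?_)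
  by_cases hQ : Q A
  · simp [hQ, h A hQ]
  · simp only [hQ, if_false]; split_ifs <;> norm_num
theorem Pr_or_le {p : ℝ} (h0 : 0 ≤ p) (h1 : p ≤ 1) (Q R : Finset α → Prop) :
    Pr p (fun A => Q A ∨ R A) ≤ Pr p Q + Pr p R := by
  unfold Pr
  rw [← Ex_add]
  refine Ex_mono h0 h1 (fun A => ?_)
  by_cases hQ : Q A <;> by_cases hR : R A <;> simp [hQ, hR]
/-- `Pr` with arbitrary decidability instances -/
theorem Pr_eq_Ex (p : ℝ) (Q : Finset α → Prop) [∀ A, Decidable (Q A)] :
    Pr p Q = Ex p (fun A => if Q A then 1 else 0) := by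
  unfold Pr
  congr 1
  ext A
  split_ifs <;> rfl
theorem Pr_not (p : ℝ) (Q : Finset α → Prop) :
    Pr p (fun A => ¬ Q A) = 1 - Pr p Q := by
  rw [Pr_eq_Ex, Pr_eq_Ex]
  have : (fun A => if ¬ Q A then (1:ℝ) else 0) = fun A => 1 - (if Q A then (1:ℝ) else 0) := by
    ext A; by_cases hQ : Q A <;> simp [hQ]
  rw [this, Ex_sub, Ex_const]
theorem Pr_exists_le {ι : Type*} {p : ℝ} (h0 : 0 ≤ p) (h1 : p ≤ 1) (s : Finset ι)
    (Q : ι → Finset α → Prop) :
    Pr p (fun A => ∃ i ∈ s, Q i A) ≤ ∑ i ∈ s, Pr p (Q i) := by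
  unfold Pr
  rw [← Ex_sum]
  refine Ex_mono h0 h1 (fun A => ?_)
  by_cases h : ∃ i ∈ s, Q i A
  · obtain ⟨i, hi, hQ⟩ := h
    rw [if_pos ⟨i, hi, hQ⟩]
    calc (1:ℝ) = if Q i A then 1 else 0 := by rw [if_pos hQ]
      _ ≤ _ := single_le_sum (f := fun i => if Q i A then (1:ℝ) else 0)
        (fun j _ => by split_ifs <;> norm_num) hi
  · rw [if_neg h]
    exact sum_nonneg (fun j _ => by split_ifs <;> norm_num)
/-- Markov -/
theorem Pr_markov {p : ℝ} (h0 : 0 ≤ p) (h1 : p ≤ 1) {f : Finset α → ℝ} (hf : ∀ A, 0 ≤ f A)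
    {t : ℝ} (ht : 0 < t) : Pr p (fun A => t ≤ f A) ≤ Ex p f / t := by
  rw [le_div_iff₀ ht, mul_comm]
  unfold Pr
  rw [← Ex_mul_left]
  refine Ex_mono h0 h1 (fun A => ?_)
  split_ifs with h
  · linarith
  · simpa using hf A

/-- union of two independent random sets -/
theorem Ex_union (p q : ℝ) (f : Finset α → ℝ) :
    Ex p (fun A => Ex q (fun B => f (A ∪ B))) = Ex (p + q - p * q) f := by
  rw [Ex_eq, Ex_eq]
  simp only [Ex_eq q, mul_sum]
  have h1 : ∑ x : α → Bool, ∑ y : α → Bool,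
      (∏ a, W p (x a)) * ((∏ a, W q (y a)) * f (toF x ∪ toF y)) =
      ∑ z : α → Bool × Bool, (∏ a, (W p (z a).1 * W q (z a).2)) *
        f (toF (fun a => (z a).1 || (z a).2)) := by
    rw [← Fintype.sum_prod_type', ← (Equiv.arrowProdEquivProdArrow α (fun _ => Bool) (fun _ => Bool)).sum_comp]
    refine sum_congr rfl (fun z _ => ?_)
    simp only [Equiv.arrowProdEquivProdArrow_apply, prod_mul_distrib]
    rw [mul_assoc]
    congr 3
    ext a
    simp [mem_toF]
  rw [h1]
  have := push (fun (_ : α) (b : Bool × Bool) => W p b.1 * W q b.2) (fun _ b => (b.1 || b.2))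
    (fun x => f (toF x))
  rw [this]
  refine sum_congr rfl (fun y _ => ?_)
  congr 1
  refine prod_congr rfl (fun a _ => ?_)
  cases y a <;> simp [Fintype.sum_prod_type, W] <;> ring

/-- marginals -/
theorem Ex_marginal (ι : β → α) (hι : Function.Injective ι) (p : ℝ) (f : Finset β → ℝ) :
    Ex p (fun A : Finset α => f (univ.filter (fun b => ι b ∈ A))) = Ex p f := by
  rw [Ex_eq, Ex_eq]
  have h0 : ∀ x : α → Bool, f (univ.filter (fun b => ι b ∈ toF x)) =
      ∑ y : β → Bool, (∏ b, if x (ι b) = y b then (1:ℝ) else 0) * f (toF y) := by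
    intro x
    simp only [Finset.prod_ite_zero]
    rw [sum_eq_single (fun b => x (ι b))]
    · simp only [mem_univ, implies_true, if_true, prod_const_one, one_mul]
      congr 1
      ext b; simp [mem_toF]
    · intro y _ hy
      rw [if_neg, zero_mul]
      intro h
      exact hy (funext fun b => (h b (mem_univ b)).symm)
    · intro h; exact absurd (mem_univ _) h
  simp only [h0, mul_sum]
  rw [sum_comm]
  refine sum_congr rfl (fun y _ => ?_)
  simp only [← mul_assoc]
  rw [← sum_mul]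
  congr 1
  have h2 : ∀ x : α → Bool, (∏ a, W p (x a)) * (∏ b, if x (ι b) = y b then (1:ℝ) else 0) =
      ∏ a, (W p (x a) * ∏ b ∈ univ.filter (fun b => ι b = a), if x a = y b then (1:ℝ) else 0) := by
    intro x
    rw [prod_mul_distrib]
    congr 1
    rw [← Finset.prod_fiberwise (univ : Finset β) ι]
    refine prod_congr rfl (fun a _ => prod_congr rfl (fun b hb => ?_))
    rw [(mem_filter.1 hb).2]
  simp only [h2]
  have h3 := Finset.prod_univ_sum (fun _ : α => (univ : Finset Bool)) (fun a t =>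
    W p t * ∏ b ∈ univ.filter (fun b => ι b = a), if t = y b then (1:ℝ) else 0)
  rw [Fintype.piFinset_univ] at h3
  rw [← h3]
  set g : α → ℝ := fun a => ∑ t : Bool, W p t * ∏ b ∈ univ.filter (fun b => ι b = a),
    if t = y b then (1:ℝ) else 0 with hg
  have h4 : ∀ b, g (ι b) = W p (y b) := by
    intro b
    have : univ.filter (fun b' => ι b' = ι b) = {b} := by
      ext b'; simp [hι.eq_iff]
    simp only [hg, this, prod_singleton]
    cases y b <;> simp
  have h5 : ∀ a, a ∉ univ.image ι → g a = 1 := by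
    intro a ha
    have : univ.filter (fun b' => ι b' = a) = ∅ := by
      ext b'; simp only [mem_filter, mem_univ, true_and, notMem_empty, iff_false]
      intro h; exact ha (mem_image.2 ⟨b', mem_univ _, h⟩)
    simp only [hg, this, prod_empty, mul_one, W_sum]
  rw [← prod_subset (subset_univ (univ.image ι)) (fun a _ ha => h5 a ha),
    prod_image (fun a _ b _ h => hι h)]
  exact prod_congr rfl (fun b _ => h4 b)

/-- independence: a random set over a sum type is a pair of independent random sets -/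
theorem Ex_sumtype (p : ℝ) (f : Finset α → Finset β → ℝ) :
    Ex p (fun A : Finset (α ⊕ β) => f (univ.filter (fun a => Sum.inl a ∈ A))
      (univ.filter (fun b => Sum.inr b ∈ A))) = Ex p (fun X => Ex p (fun Y => f X Y)) := by
  rw [Ex_eq, Ex_eq]
  simp only [Ex_eq p, mul_sum]
  rw [← Fintype.sum_prod_type']
  refine Fintype.sum_equiv (M := ℝ) (Equiv.sumArrowEquivProdArrow α β Bool) _ _ (fun z => ?_)
  simp only [Equiv.sumArrowEquivProdArrow, Equiv.coe_fn_mk]
  rw [Fintype.prod_sum_type, mul_assoc]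
  congr 3
  · ext a; simp [mem_toF]
  · ext a; simp [mem_toF]

/-- general splitting -/
theorem Ex_split (ι : γ → α ⊕ β) (hι : Function.Injective ι) (p : ℝ) (f : Finset γ → ℝ) :
    Ex p (fun X : Finset α => Ex p (fun Y : Finset β =>
      f (univ.filter (fun c => Sum.elim (fun a => a ∈ X) (fun b => b ∈ Y) (ι c))))) = Ex p f := by
  rw [← Ex_sumtype p (fun X Y =>
      f (univ.filter (fun c => Sum.elim (fun a => a ∈ X) (fun b => b ∈ Y) (ι c)))),
    ← Ex_marginal ι hι p f]
  congr 1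
  ext A
  congr 1
  ext c
  simp only [mem_filter, mem_univ, true_and]
  rcases ι c with a | b <;> simp

/-- the part inside `S` may be resampled -/
theorem Ex_resample (S : Finset α) (p : ℝ) (f : Finset α → ℝ) :
    Ex p f = Ex p (fun A => Ex p (fun B => f ((A \ S) ∪ (B ∩ S)))) := by
  have := Ex_split (α := α) (β := α) (γ := α)
    (fun a => if a ∈ S then Sum.inr a else Sum.inl a)
    (by
      intro a b h
      by_cases ha : a ∈ S <;> by_cases hb : b ∈ S <;> simp [ha, hb] at h <;> exact h) p f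
  rw [← this]
  congr 1
  ext A
  congr 1
  ext B
  congr 1
  ext a
  by_cases ha : a ∈ S <;> simp [ha]

theorem Ex_mul_disjoint (S T : Finset α) (h : Disjoint S T) (p : ℝ) (f g : Finset α → ℝ) :
    Ex p (fun A => f (A ∩ S) * g (A ∩ T)) = Ex p (fun A => f (A ∩ S)) * Ex p (fun A => g (A ∩ T)) := by
  rw [Ex_resample S]
  have h1 : ∀ A B : Finset α, ((A \ S) ∪ (B ∩ S)) ∩ S = B ∩ S := by
    intro A B; ext a
    simp only [mem_inter, mem_union, mem_sdiff]; tauto
  have h2 : ∀ A B : Finset α, ((A \ S) ∪ (B ∩ S)) ∩ T = A ∩ T := by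
    intro A B; ext a
    have := fun ha : a ∈ S => disjoint_left.1 h ha
    simp only [mem_inter, mem_union, mem_sdiff]; tauto
  simp only [h1, h2]
  have h3 : ∀ A : Finset α, Ex p (fun B => f (B ∩ S) * g (A ∩ T)) =
      Ex p (fun B => f (B ∩ S)) * g (A ∩ T) := by
    intro A
    have : (fun B : Finset α => f (B ∩ S) * g (A ∩ T)) = fun B => g (A ∩ T) * f (B ∩ S) := by
      ext B; ring
    rw [this, Ex_mul_left, mul_comm]
  simp only [h3]
  rw [Ex_mul_left]

theorem Ex_prod_disjoint {ι : Type*} (s : Finset ι) (S : ι → Finset α)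
    (h : ∀ i ∈ s, ∀ j ∈ s, i ≠ j → Disjoint (S i) (S j)) (p : ℝ) (f : ι → Finset α → ℝ) :
    Ex p (fun A => ∏ i ∈ s, f i (A ∩ S i)) = ∏ i ∈ s, Ex p (fun A => f i (A ∩ S i)) := by
  induction s using Finset.induction_on with
  | empty => simp [Ex_const]
  | insert i s hi ih =>
    simp only [prod_insert hi]
    rw [← ih (fun a ha b hb => h a (mem_insert_of_mem ha) b (mem_insert_of_mem hb))]
    have key := Ex_mul_disjoint (S i) (s.biUnion S) (by
      rw [disjoint_biUnion_right]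
      intro j hj
      exact h i (mem_insert_self _ _) j (mem_insert_of_mem hj)
        (fun e => hi (e ▸ hj))) p (f i) (fun B => ∏ j ∈ s, f j (B ∩ S j))
    have h1 : ∀ A : Finset α, ∏ j ∈ s, f j (A ∩ s.biUnion S ∩ S j) = ∏ j ∈ s, f j (A ∩ S j) := by
      intro A
      refine prod_congr rfl (fun j hj => ?_)
      congr 1
      ext a
      simp only [mem_inter, mem_biUnion]
      constructor
      · rintro ⟨⟨h1, _⟩, h3⟩; exact ⟨h1, h3⟩
      · rintro ⟨h1, h3⟩; exact ⟨⟨h1, j, hj, h3⟩, h3⟩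
    simp only [h1] at key
    exact key

theorem Prob.Ex_singleton (a : α) (p : ℝ) (g : Finset α → ℝ) (hg : ∀ A, g (A ∩ {a}) = g A) :
    Ex p g = p * g {a} + (1 - p) * g ∅ := by
  have h1 : Ex p g = Ex p (fun A : Finset Unit => g (if () ∈ A then {a} else ∅)) := by
    rw [← Ex_marginal (fun _ : Unit => a) (fun _ _ _ => rfl) p
      (fun A : Finset Unit => g (if () ∈ A then {a} else ∅))]
    congr 1
    ext A
    rw [← hg A]
    congr 1
    ext b
    by_cases ha : a ∈ A
    · simp [ha]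
    · simp [ha]
  rw [h1, Ex_eq]
  refine (Fintype.sum_equiv (M := ℝ) (Equiv.funUnique Unit Bool) _
    (fun b : Bool => W p b * g (if b = true then {a} else ∅)) (fun x => by
      simp [mem_toF, Equiv.funUnique])).trans ?_
  simp [W]

theorem Prob.Ex_erase_split (a : α) (p : ℝ) (f : Finset α → ℝ) :
    Ex p f = p * Ex p (fun A => f (insert a (A.erase a))) + (1 - p) * Ex p (fun A => f (A.erase a)) := by
  rw [Ex_resample {a}]
  have h1 : ∀ A : Finset α, Ex p (fun B => f ((A \ {a}) ∪ (B ∩ {a}))) =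
      p * f (insert a (A.erase a)) + (1 - p) * f (A.erase a) := by
    intro A
    rw [Prob.Ex_singleton a p (fun B => f ((A \ {a}) ∪ (B ∩ {a})))]
    · congr 3
      · ext b; simp only [mem_union, mem_sdiff, mem_singleton, mem_inter, mem_insert, mem_erase]
        tauto
      · ext b; simp only [mem_union, mem_sdiff, mem_singleton, mem_inter, mem_erase,
          notMem_empty, false_and, or_false]; tauto
    · intro B
      simp only [inter_assoc, inter_self]
  simp only [h1]
  rw [Ex_add, Ex_mul_left, Ex_mul_left]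

theorem Ex_mem_erase (a : α) (p : ℝ) (f : Finset α → ℝ) :
    Ex p (fun A => if a ∈ A then f (A.erase a) else 0) = p * Ex p (fun A => f (A.erase a)) := by
  rw [Prob.Ex_erase_split a]
  simp [Ex_const]
theorem Ex_not_mem (a : α) (p : ℝ) (f : Finset α → ℝ) :
    Ex p (fun A => if a ∈ A then 0 else f A) = (1 - p) * Ex p (fun A => f (A.erase a)) := by
  rw [Prob.Ex_erase_split a]
  simp [Ex_const]

theorem Ex_monotone {p q : ℝ} (h0 : 0 ≤ p) (hpq : p ≤ q) (h1 : q ≤ 1) {f : Finset α → ℝ}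
    (hf : ∀ A B, A ⊆ B → f A ≤ f B) : Ex p f ≤ Ex q f := by
  rcases eq_or_lt_of_le (hpq.trans h1) with hp1 | hp1
  · have : q = p := le_antisymm (hp1 ▸ h1) hpq
    rw [this]
  set r := (q - p) / (1 - p) with hr
  have hr0 : 0 ≤ r := div_nonneg (by linarith) (by linarith)
  have hr1 : r ≤ 1 := by rw [hr, div_le_one (by linarith)]; linarith
  have hq : p + r - p * r = q := by
    have : (1 - p) * r = q - p := by rw [hr]; field_simp
    linarith
  rw [← hq, ← Ex_union]
  refine Ex_mono h0 hp1.le (fun A => ?_)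
  calc f A = Ex r (fun _ : Finset α => f A) := (Ex_const _ _).symm
    _ ≤ _ := Ex_mono hr0 hr1 (fun B => hf _ _ subset_union_left)
theorem Ex_antitone {p q : ℝ} (h0 : 0 ≤ p) (hpq : p ≤ q) (h1 : q ≤ 1) {f : Finset α → ℝ}
    (hf : ∀ A B, A ⊆ B → f B ≤ f A) : Ex q f ≤ Ex p f := by
  have := Ex_monotone h0 hpq h1 (f := fun A => (-1) * f A) (fun A B h => by
    have := hf A B h; linarith)
  rw [Ex_mul_left, Ex_mul_left] at this
  linarith

theorem Prob.Ex_mem (p : ℝ) (a : α) : Ex p (fun A => if a ∈ A then (1:ℝ) else 0) = p := by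
  have := Ex_mem_erase a p (fun _ => 1)
  rw [this, Ex_const, mul_one]

omit [Fintype α] in
theorem Prob.card_inter_eq (A X : Finset α) :
    ((A ∩ X).card : ℝ) = ∑ a ∈ X, if a ∈ A then (1:ℝ) else 0 := by
  rw [← sum_filter, sum_const, nsmul_eq_mul, mul_one]
  congr 2
  ext a; simp [and_comm]

theorem Ex_card_inter (p : ℝ) (X : Finset α) :
    Ex p (fun A => ((A ∩ X).card : ℝ)) = p * X.card := by
  simp only [Prob.card_inter_eq]
  rw [Ex_sum]
  simp only [Prob.Ex_mem]
  rw [sum_const, nsmul_eq_mul, mul_comm]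

theorem Prob.Ex_mem_mem (p : ℝ) (a b : α) (h : a ≠ b) :
    Ex p (fun A => (if a ∈ A then (1:ℝ) else 0) * (if b ∈ A then (1:ℝ) else 0)) = p * p := by
  have := Ex_mul_disjoint {a} {b} (by simpa using h) p (fun A => if a ∈ A then (1:ℝ) else 0)
    (fun A => if b ∈ A then (1:ℝ) else 0)
  simpa [Prob.Ex_mem] using this

theorem Ex_var (p : ℝ) (X : Finset α) :
    Ex p (fun A => (((A ∩ X).card : ℝ) - p * X.card) ^ 2) = p * (1 - p) * X.card := by
  have h1 : ∀ A : Finset α, (((A ∩ X).card : ℝ) - p * X.card) ^ 2 =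
      ∑ a ∈ X, ∑ b ∈ X, ((if a ∈ A then (1:ℝ) else 0) - p) * ((if b ∈ A then (1:ℝ) else 0) - p) := by
    intro A
    rw [← sum_mul_sum, Prob.card_inter_eq, sum_sub_distrib, sum_const, nsmul_eq_mul]
    ring
  simp only [h1]
  rw [Ex_sum]
  simp only [Ex_sum]
  have h2 : ∀ a ∈ X, ∀ b ∈ X, Ex p (fun A : Finset α =>
      ((if a ∈ A then (1:ℝ) else 0) - p) * ((if b ∈ A then (1:ℝ) else 0) - p)) =
      if a = b then p * (1 - p) else 0 := by
    intro a _ b _
    have e : (fun A : Finset α =>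
      ((if a ∈ A then (1:ℝ) else 0) - p) * ((if b ∈ A then (1:ℝ) else 0) - p)) =
      fun A => (if a ∈ A then (1:ℝ) else 0) * (if b ∈ A then (1:ℝ) else 0)
        - p * (if a ∈ A then (1:ℝ) else 0) - p * (if b ∈ A then (1:ℝ) else 0) + p * p := by
      ext A; ring
    rw [e, Ex_add, Ex_sub, Ex_sub, Ex_mul_left, Ex_mul_left, Ex_const, Prob.Ex_mem, Prob.Ex_mem]
    by_cases hab : a = b
    · subst hab
      have : (fun A : Finset α => (if a ∈ A then (1:ℝ) else 0) * (if a ∈ A then (1:ℝ) else 0)) =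
        fun A => if a ∈ A then (1:ℝ) else 0 := by
        ext A; split_ifs <;> norm_num
      rw [this, Prob.Ex_mem]
      simp; ring
    · rw [Prob.Ex_mem_mem p a b hab]
      simp [hab]
  rw [sum_congr rfl (fun a ha => sum_congr rfl (fun b hb => h2 a ha b hb))]
  simp [mul_comm]

theorem Pr_subset (p : ℝ) (F : Finset α) :
    Pr p (fun A => F ⊆ A) = p ^ F.card := by
  have h := Ex_prod_disjoint F (fun a => ({a} : Finset α)) (fun i _ j _ hij => by simpa using hij) p
    (fun a A => if a ∈ A then (1:ℝ) else 0)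
  have h1 : ∀ A : Finset α, (∏ i ∈ F, if i ∈ A ∩ {i} then (1:ℝ) else 0) =
      if F ⊆ A then (1:ℝ) else 0 := by
    intro A
    rw [Finset.prod_ite_zero]
    simp [subset_iff]
  have h2 : ∀ i : α, Ex p (fun A : Finset α => if i ∈ A ∩ {i} then (1:ℝ) else 0) = p := by
    intro i
    simpa using Prob.Ex_mem p i
  simp only [h1, h2, prod_const] at h
  rw [Pr_eq_Ex, ← h]

theorem Prob.Pr_disjoint (p : ℝ) (B : Finset α) :
    Pr p (fun A => Disjoint B A) = (1 - p) ^ B.card := by
  have h := Ex_prod_disjoint B (fun a => ({a} : Finset α)) (fun i _ j _ hij => by simpa using hij) p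
    (fun a A => if a ∉ A then (1:ℝ) else 0)
  have h1 : ∀ A : Finset α, (∏ i ∈ B, if i ∉ A ∩ {i} then (1:ℝ) else 0) =
      if Disjoint B A then (1:ℝ) else 0 := by
    intro A
    rw [Finset.prod_ite_zero]
    simp [disjoint_left]
  have h2 : ∀ i : α, Ex p (fun A : Finset α => if i ∉ A ∩ {i} then (1:ℝ) else 0) = 1 - p := by
    intro i
    have := Pr_not p (fun A : Finset α => i ∈ A)
    have h3 : Pr p (fun A : Finset α => i ∈ A) = p := by
      rw [Pr_eq_Ex]; exact Prob.Ex_mem p i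
    rw [h3] at this
    rw [← this, Pr_eq_Ex]
    congr 1
    ext A
    simp
  simp only [h1, h2, prod_const] at h
  rw [Pr_eq_Ex, ← h]

theorem Pr_subset_disjoint (p : ℝ) (F B : Finset α) (h : Disjoint F B) :
    Pr p (fun A => F ⊆ A ∧ Disjoint B A) = p ^ F.card * (1 - p) ^ B.card := by
  have := Ex_mul_disjoint F B h p (fun A => if F ⊆ A then (1:ℝ) else 0)
    (fun A => if Disjoint B A then (1:ℝ) else 0)
  rw [← Pr_subset p F, ← Prob.Pr_disjoint p B]
  have e1 : ∀ A : Finset α, (F ⊆ A ∩ F) ↔ F ⊆ A := by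
    intro A; simp [subset_inter_iff]
  have e2 : ∀ A : Finset α, Disjoint B (A ∩ B) ↔ Disjoint B A := by
    intro A
    simp only [disjoint_left, mem_inter]
    constructor
    · intro h a ha hA; exact h ha ⟨hA, ha⟩
    · intro h a ha hA; exact h ha hA.1
  simp only [e1, e2] at this
  rw [Pr_eq_Ex, Pr_eq_Ex, Pr_eq_Ex, ← this]
  congr 1
  ext A
  by_cases h1 : F ⊆ A <;> by_cases h2 : Disjoint B A <;> simp [h1, h2]

/-- Chebyshev, lower tail -/
theorem Pr_lower_tail {p : ℝ} (h0 : 0 ≤ p) (h1 : p ≤ 1) (X : Finset α) {t : ℝ} (ht : 0 < t) :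
    Pr p (fun A => ((A ∩ X).card : ℝ) ≤ p * X.card - t) ≤ p * X.card / t ^ 2 := by
  have hM := Pr_markov h0 h1 (f := fun A : Finset α => (((A ∩ X).card : ℝ) - p * X.card) ^ 2)
    (fun A => sq_nonneg _) (t := t ^ 2) (by positivity)
  refine (Pr_mono h0 h1 (R := fun A => t ^ 2 ≤ (((A ∩ X).card : ℝ) - p * X.card) ^ 2)
    (fun A hA => by nlinarith)).trans (hM.trans ?_)
  rw [Ex_var]
  apply div_le_div_of_nonneg_right _ (by positivity)
  have : 0 ≤ p * X.card := mul_nonneg h0 (Nat.cast_nonneg _)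
  nlinarith
end

/-! ### graphs -/

theorem gr_adj {n : ℕ} (A : Finset (Edg n)) (u v : Fin n) :
    (gr A).Adj u v ↔ ∃ h : u ≠ v, (⟨s(u, v), by simpa using h⟩ : Edg n) ∈ A := by
  unfold gr
  rw [SimpleGraph.fromEdgeSet_adj]
  constructor
  · rintro ⟨⟨e, he, h⟩, hne⟩
    refine ⟨hne, ?_⟩
    have : (⟨s(u, v), by simpa using hne⟩ : Edg n) = e := Subtype.ext h.symm
    rw [this]; exact he
  · rintro ⟨hne, h⟩
    exact ⟨⟨_, h, rfl⟩, hne⟩
theorem gr_union {n : ℕ} (A B : Finset (Edg n)) : gr (A ∪ B) = gr A ⊔ gr B := by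
  ext u v
  simp only [gr_adj, SimpleGraph.sup_adj, mem_union]
  constructor
  · rintro ⟨h, h1 | h1⟩
    · exact Or.inl ⟨h, h1⟩
    · exact Or.inr ⟨h, h1⟩
  · rintro (⟨h, h1⟩ | ⟨h, h1⟩)
    · exact ⟨h, Or.inl h1⟩
    · exact ⟨h, Or.inr h1⟩
theorem gr_mono {n : ℕ} {A B : Finset (Edg n)} (h : A ⊆ B) : gr A ≤ gr B := by
  intro u v huv
  rw [gr_adj] at huv ⊢
  obtain ⟨h1, h2⟩ := huv
  exact ⟨h1, h h2⟩
theorem del_del {n : ℕ} (G : SimpleGraph (Fin n)) (U V : Finset (Fin n)) :
    del (del G U) V = del (del G V) U := by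
  ext u v
  simp only [ind]
  tauto
theorem nb_del {n : ℕ} (G : SimpleGraph (Fin n)) {v w : Fin n} (h : w ≠ v) :
    nb (del G {v}) w = (nb G w).erase v := by
  ext u
  simp only [nb, ind, mem_filter, mem_univ, true_and, mem_erase, mem_compl, mem_singleton]
  tauto

/-- the graph without `v` and the neighbourhood of `v` are independent -/
theorem Ex_vertex {n : ℕ} (p : ℝ) (v : Fin n)
    (f : SimpleGraph (Fin n) → Finset (Fin n) → ℝ) :
    Ex p (fun A : Finset (Edg n) => f (del (gr A) {v}) (nb (gr A) v)) =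
    Ex p (fun A : Finset (Edg n) => Ex p (fun X : Finset (Fin n) =>
      f (del (gr A) {v}) (X.erase v))) := by
  let ι : Edg n → Edg n ⊕ Fin n := fun e =>
    if h : v ∈ (e : Sym2 (Fin n)) then Sum.inr (Sym2.Mem.other h) else Sum.inl e
  have hι : Function.Injective ι := by
    intro e e' h
    by_cases h1 : v ∈ (e : Sym2 (Fin n)) <;> by_cases h2 : v ∈ (e' : Sym2 (Fin n))
    · simp only [ι, h1, h2, dif_pos, Sum.inr.injEq] at h
      apply Subtype.ext
      rw [← Sym2.other_spec h1, ← Sym2.other_spec h2, h]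
    · simp [ι, h1, h2] at h
    · simp [ι, h1, h2] at h
    · simp only [ι, h1, h2, dif_neg, not_false_eq_true, Sum.inl.injEq] at h
      exact h
  rw [← Ex_split ι hι p (fun A => f (del (gr A) {v}) (nb (gr A) v))]
  congr 1
  ext A
  congr 1
  ext X
  have hm : ∀ e : Edg n, e ∈ (univ.filter (fun c =>
      Sum.elim (fun a => a ∈ A) (fun b => b ∈ X) (ι c))) ↔
      (if h : v ∈ (e : Sym2 (Fin n)) then Sym2.Mem.other h ∈ X else e ∈ A) := by
    intro e
    simp only [mem_filter, mem_univ, true_and, ι]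
    by_cases h1 : v ∈ (e : Sym2 (Fin n))
    · simp [h1]
    · simp [h1]
  congr 1
  · ext a b
    simp only [ind, mem_compl, mem_singleton, gr_adj, hm]
    constructor
    · rintro ⟨⟨h, h1⟩, ha, hb⟩
      refine ⟨⟨h, ?_⟩, ha, hb⟩
      rw [dif_neg] at h1
      · exact h1
      · rw [Sym2.mem_iff]; tauto
    · rintro ⟨⟨h, h1⟩, ha, hb⟩
      refine ⟨⟨h, ?_⟩, ha, hb⟩
      rw [dif_neg]
      · exact h1
      · rw [Sym2.mem_iff]; tauto
  · ext a
    simp only [nb, mem_filter, mem_univ, true_and, gr_adj, hm, mem_erase]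
    constructor
    · rintro ⟨h, h1⟩
      have h2 : v ∈ s(v, a) := by simp
      rw [dif_pos h2] at h1
      have h3 : Sym2.Mem.other h2 = a := by
        have := Sym2.other_spec h2
        rwa [Sym2.congr_right] at this
      rw [h3] at h1
      exact ⟨fun e => h e.symm, h1⟩
    · rintro ⟨h, h1⟩
      refine ⟨fun e => h e.symm, ?_⟩
      have h2 : v ∈ s(v, a) := by simp
      rw [dif_pos h2]
      have h3 : Sym2.Mem.other h2 = a := by
        have := Sym2.other_spec h2
        rwa [Sym2.congr_right] at this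
      rw [h3]; exact h1

theorem card_Edg (n : ℕ) : Fintype.card (Edg n) = n.choose 2 := by
  have := Sym2.card_subtype_not_diag (α := Fin n)
  rw [Fintype.card_fin] at this
  rw [← this]

/-- graphs on `Fin n` are sets of edges -/
noncomputable def grEquiv (n : ℕ) : Finset (Edg n) ≃ SimpleGraph (Fin n) where
  toFun := gr
  invFun G := univ.filter (fun e => (e : Sym2 (Fin n)) ∈ G.edgeSet)
  left_inv A := by
    ext e
    obtain ⟨e, he⟩ := e
    induction e with
    | _ u v =>
      simp only [mem_filter, mem_univ, true_and, SimpleGraph.mem_edgeSet, gr_adj]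
      constructor
      · rintro ⟨h, h1⟩; exact h1
      · intro h; exact ⟨by simpa using he, h⟩
  right_inv G := by
    ext u v
    simp only [gr_adj, mem_filter, mem_univ, true_and, SimpleGraph.mem_edgeSet]
    constructor
    · rintro ⟨_, h⟩; exact h
    · intro h; exact ⟨h.ne, h⟩

theorem card_edge_gr {n : ℕ} (A : Finset (Edg n)) [Fintype (gr A).edgeSet] :
    (gr A).edgeFinset.card = A.card := by
  have h := (grEquiv n).left_inv A
  have h2 : (gr A).edgeFinset = A.map (Function.Embedding.subtype _) := by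
    ext e
    simp only [SimpleGraph.mem_edgeFinset, mem_map, Function.Embedding.coe_subtype]
    constructor
    · intro he
      have hd : ¬ e.IsDiag := SimpleGraph.not_isDiag_of_mem_edgeSet _ he
      refine ⟨⟨e, hd⟩, ?_, rfl⟩
      rw [← h]
      simp only [grEquiv, mem_filter, mem_univ, true_and]
      exact he
    · rintro ⟨a, ha, rfl⟩
      rw [← h] at ha
      simp only [grEquiv, mem_filter, mem_univ, true_and] at ha
      exact ha
  rw [h2, card_map]

/-- the probability in the frozen statement -/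
theorem Pr_eq {n : ℕ} (p : ℝ) (Q : SimpleGraph (Fin n) → Prop) :
    (∑ G : SimpleGraph (Fin n),
        if Q G then p ^ G.edgeFinset.card * (1 - p) ^ (n.choose 2 - G.edgeFinset.card) else 0) =
    Pr p (fun A : Finset (Edg n) => Q (gr A)) := by
  rw [Pr_eq_Ex]
  unfold Ex
  symm
  refine Fintype.sum_equiv (grEquiv n) _ _ (fun A => ?_)
  have h1 : grEquiv n A = gr A := rfl
  rw [h1, card_edge_gr, card_Edg]
  by_cases hQ : Q (gr A) <;> simp [hQ]

end Pool.Agent.GR
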